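import Pool.Agent.Run7.h244.VR.Defs

/-!
# Criteria for cyclic virtual retracts
-/

set_option autoImplicit false

namespace Run7.h244.VR

open Subgroup

universe u

variable {G : Type u} [Group G]

/-- Let `M` be normalised by `⟨g⟩`, meet it trivially, and let `M⟨g⟩` contain a subgroup of finite index.
Then `⟨g⟩` is a virtual retract. -/
theorem retr (g : G) (M : Subgroup G) (h1 : ∀ y ∈ zpowers g, ∀ x ∈ M, y * x * y⁻¹ ∈ M)
    (h2 : ∀ y ∈ zpowers g, y ∈ M → y = 1) (L : Subgroup G) (hL : L.FiniteIndex)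
    (h3 : ∀ x ∈ L, ∃ y ∈ zpowers g, x * y⁻¹ ∈ M) : IsVirtualRetract (zpowers g) := by
  classical
  let K : Subgroup G :=
    { carrier := {x | ∃ y ∈ zpowers g, x * y⁻¹ ∈ M}
      mul_mem' := by
        rintro x x' ⟨y, hy, hx⟩ ⟨y', hy', hx'⟩
        refine ⟨y * y', mul_mem hy hy', ?_⟩
        have h : x * x' * (y * y')⁻¹ = (x * y⁻¹) * (y * (x' * y'⁻¹) * y⁻¹) := by group
        rw [h]
        exact mul_mem hx (h1 y hy _ hx')
      one_mem' := ⟨1, one_mem _, by simp⟩
      inv_mem' := by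
        rintro x ⟨y, hy, hx⟩
        refine ⟨y⁻¹, inv_mem hy, ?_⟩
        have h : x⁻¹ * y⁻¹⁻¹ = y⁻¹ * (x * y⁻¹)⁻¹ * y⁻¹⁻¹ := by group
        rw [h]
        exact h1 _ (inv_mem hy) _ (inv_mem hx) }
  have hK : ∀ x : K, ∃ y ∈ zpowers g, (x : G) * y⁻¹ ∈ M := fun x => x.2
  choose r hr hr' using hK
  have huniq : ∀ (x : K) (y : G), y ∈ zpowers g → (x : G) * y⁻¹ ∈ M → r x = y := by
    intro x y hy hxy
    have h5 : y * (r x)⁻¹ ∈ M := by
      have : y * (r x)⁻¹ = ((x : G) * y⁻¹)⁻¹ * ((x : G) * (r x)⁻¹) := by group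
      rw [this]
      exact mul_mem (inv_mem hxy) (hr' x)
    have h6 := h2 _ (mul_mem hy (inv_mem (hr x))) h5
    exact (mul_inv_eq_one.1 h6).symm
  have hle : L ≤ K := fun x hx => h3 x hx
  refine ⟨K, Subgroup.finiteIndex_of_le hle, ?_, ?_⟩
  · intro x hx
    exact ⟨x, hx, by simp⟩
  · refine ⟨{ toFun := fun x => ⟨r x, hr x⟩, map_one' := ?_, map_mul' := ?_ }, ?_⟩
    · apply Subtype.ext
      exact huniq 1 1 (one_mem _) (by simp)
    · intro x x'
      apply Subtype.ext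
      refine huniq (x * x') (r x * r x') (mul_mem (hr x) (hr x')) ?_
      have h : ((x * x' : K) : G) * (r x * r x')⁻¹ =
          ((x : G) * (r x)⁻¹) * (r x * ((x' : G) * (r x')⁻¹) * (r x)⁻¹) := by
        push_cast
        group
      rw [h]
      exact mul_mem (hr' x) (h1 _ (hr x) _ (hr' x'))
    · intro x hx
      exact huniq x x hx (by simp)

theorem crit_fin (g : G) (N : Subgroup G) (hN : N.Normal) (hf : N.FiniteIndex)
    (h2 : ∀ y ∈ zpowers g, y ∈ N → y = 1) : IsVirtualRetract (zpowers g) :=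
  retr g N (fun y _ x hx => hN.conj_mem x hx y) h2 N hf
    (fun x hx => ⟨1, one_mem _, by simpa using hx⟩)

theorem IsVirtualRetract.conj {g : G} (h : IsVirtualRetract (zpowers g)) (t : G) :
    IsVirtualRetract (zpowers (t * g * t⁻¹)) := by
  obtain ⟨K, hK, hle, ρ, hρ⟩ := h
  have hz : ∀ x : G, x ∈ zpowers (t * g * t⁻¹) ↔ t⁻¹ * x * t ∈ zpowers g := by
    intro x
    simp only [mem_zpowers_iff, conj_zpow]
    constructor
    · rintro ⟨k, rfl⟩
      exact ⟨k, by group⟩
    · rintro ⟨k, hk⟩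
      exact ⟨k, by rw [hk]; group⟩
  have hzc : ∀ x : G, x ∈ zpowers g → t * x * t⁻¹ ∈ zpowers (t * g * t⁻¹) := by
    intro x hx
    rw [hz]
    have : t⁻¹ * (t * x * t⁻¹) * t = x := by group
    rwa [this]
  let K' : Subgroup G := K.map (MulAut.conj t).toMonoidHom
  have hK' : ∀ x : G, x ∈ K' ↔ t⁻¹ * x * t ∈ K := by
    intro x
    constructor
    · rintro ⟨y, hy, rfl⟩
      have : t⁻¹ * ((MulAut.conj t).toMonoidHom y) * t = y := by
        show t⁻¹ * (t * y * t⁻¹) * t = y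
        group
      rw [this]
      exact hy
    · intro hx
      exact ⟨_, hx, by show t * (t⁻¹ * x * t) * t⁻¹ = x; group⟩
  have hfi : K'.FiniteIndex := by
    refine ⟨?_⟩
    have : K'.index = K.index :=
      Subgroup.index_map_of_bijective (f := (MulAut.conj t).toMonoidHom)
        (MulAut.conj t).bijective K
    rw [this]
    exact hK.index_ne_zero
  refine ⟨K', hfi, ?_, ?_⟩
  · intro x hx
    rw [hK']
    exact hle ((hz x).1 hx)
  · refine ⟨{ toFun := fun x => ⟨t * (ρ ⟨t⁻¹ * x * t, (hK' _).1 x.2⟩ : G) * t⁻¹,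
        hzc _ (ρ _).2⟩, map_one' := ?_, map_mul' := ?_ }, ?_⟩
    · apply Subtype.ext
      have h1 : (⟨t⁻¹ * ((1 : K') : G) * t, (hK' _).1 (1 : K').2⟩ : K) = 1 := by
        apply Subtype.ext
        simp
      show t * (ρ _ : G) * t⁻¹ = 1
      rw [h1, map_one]
      simp
    · intro x y
      apply Subtype.ext
      have h1 : (⟨t⁻¹ * ((x * y : K') : G) * t, (hK' _).1 (x * y).2⟩ : K) =
          ⟨t⁻¹ * x * t, (hK' _).1 x.2⟩ * ⟨t⁻¹ * y * t, (hK' _).1 y.2⟩ := by
        apply Subtype.ext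
        show t⁻¹ * ((x : G) * y) * t = (t⁻¹ * x * t) * (t⁻¹ * y * t)
        group
      show t * (ρ _ : G) * t⁻¹ = (t * (ρ _ : G) * t⁻¹) * (t * (ρ _ : G) * t⁻¹)
      rw [h1, map_mul]
      push_cast
      group
    · intro x hx
      show t * (ρ _ : G) * t⁻¹ = x
      rw [hρ _ ((hz _).1 hx)]
      group

theorem IsVirtualRetract.of_conj {g : G} (t : G) (h : IsVirtualRetract (zpowers (t * g * t⁻¹))) :
    IsVirtualRetract (zpowers g) := by
  have h1 := h.conj t⁻¹
  have : t⁻¹ * (t * g * t⁻¹) * t⁻¹⁻¹ = g := by group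
  rwa [this] at h1

/-- A homomorphism of a subgroup of finite index to `ℤ` which does not kill a power of `g`. -/
theorem crit_inf (g : G) (H : Subgroup G) (hH : H.FiniteIndex) (χ : H →* Multiplicative ℤ) (k : ℕ)
    (hg : g ^ k ∈ H) (hχ : χ ⟨g ^ k, hg⟩ ≠ 1) : IsVirtualRetract (zpowers g) := by
  classical
  -- the normal core
  set N : Subgroup G := H.normalCore with hN
  have hNn : N.Normal := Subgroup.normalCore_normal H
  have hNf : N.FiniteIndex := by
    have := hH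
    infer_instance
  have hNH : N ≤ H := Subgroup.normalCore_le H
  -- the function on `G`
  let c : G → ℤ := fun x => if h : x ∈ H then (χ ⟨x, h⟩).toAdd else 0
  have cmul : ∀ x ∈ H, ∀ y ∈ H, c (x * y) = c x + c y := by
    intro x hx y hy
    have hxy := mul_mem hx hy
    simp only [c, dif_pos hx, dif_pos hy, dif_pos hxy]
    rw [← toAdd_mul, ← map_mul]
    rfl
  have cone : c 1 = 0 := by
    have := cmul 1 (one_mem _) 1 (one_mem _)
    rw [mul_one] at this
    linarith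
  have cinv : ∀ x ∈ H, c x⁻¹ = - c x := by
    intro x hx
    have := cmul x hx x⁻¹ (inv_mem hx)
    rw [mul_inv_cancel, cone] at this
    linarith
  have cconj : ∀ x ∈ H, ∀ y ∈ H, c (y * x * y⁻¹) = c x := by
    intro x hx y hy
    rw [cmul _ (mul_mem hy hx) _ (inv_mem hy), cmul _ hy _ hx, cinv _ hy]
    ring
  have cpow : ∀ x ∈ H, ∀ n : ℕ, c (x ^ n) = n * c x := by
    intro x hx n
    induction n with
    | zero => simp [cone]
    | succ n ih =>
      rw [pow_succ, cmul _ (pow_mem hx n) _ hx, ih]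
      push_cast
      ring
  -- a power of `g` in `N`
  obtain ⟨m, hm0, hm⟩ : ∃ m : ℕ, 0 < m ∧ g ^ m ∈ N := by
    refine ⟨N.index, Nat.pos_of_ne_zero hNf.index_ne_zero, ?_⟩
    exact Subgroup.pow_index_mem N g
  have hcm : c (g ^ m) ≠ 0 := by
    have h1 : c ((g ^ m) ^ k) = k * c (g ^ m) := cpow _ (hNH hm) k
    have h2 : c ((g ^ k) ^ m) = m * c (g ^ k) := cpow _ hg m
    rw [← pow_mul, mul_comm m k, pow_mul, h2] at h1
    have h3 : c (g ^ k) ≠ 0 := by
      simp only [c, dif_pos hg]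
      intro h
      exact hχ (by rw [← ofAdd_toAdd (χ ⟨g ^ k, hg⟩), h]; rfl)
    intro h
    rw [h, mul_zero] at h1
    have h4 : (m : ℤ) * c (g ^ k) ≠ 0 := mul_ne_zero (by exact_mod_cast hm0.ne') h3
    exact h4 h1
  -- the average
  let c' : G → ℤ := fun x => ∑ i ∈ Finset.range m, c (g ^ i * x * (g ^ i)⁻¹)
  have hconjN : ∀ x ∈ N, ∀ y : G, y * x * y⁻¹ ∈ H := fun x hx y => hNH (hNn.conj_mem x hx y)
  have c'mul : ∀ x ∈ N, ∀ y ∈ N, c' (x * y) = c' x + c' y := by
    intro x hx y hy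
    simp only [c']
    rw [← Finset.sum_add_distrib]
    refine Finset.sum_congr rfl fun i _ => ?_
    rw [← cmul _ (hconjN x hx _) _ (hconjN y hy _)]
    congr 1
    group
  have c'one : c' 1 = 0 := by
    have := c'mul 1 (one_mem _) 1 (one_mem _)
    rw [mul_one] at this
    linarith
  have c'inv : ∀ x ∈ N, c' x⁻¹ = - c' x := by
    intro x hx
    have := c'mul x hx x⁻¹ (inv_mem hx)
    rw [mul_inv_cancel, c'one] at this
    linarith
  have c'pow : ∀ x ∈ N, ∀ n : ℕ, c' (x ^ n) = n * c' x := by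
    intro x hx n
    induction n with
    | zero => simp [c'one]
    | succ n ih =>
      rw [pow_succ, c'mul _ (pow_mem hx n) _ hx, ih]
      push_cast
      ring
  have c'zpow : ∀ x ∈ N, ∀ n : ℤ, c' (x ^ n) = n * c' x := by
    intro x hx n
    obtain ⟨n, rfl | rfl⟩ := n.eq_nat_or_neg
    · rw [zpow_natCast, c'pow x hx]
    · rw [zpow_neg, zpow_natCast, c'inv _ (pow_mem hx n), c'pow x hx]
      push_cast
      ring
  have c'g : ∀ x ∈ N, c' (g * x * g⁻¹) = c' x := by
    intro x hx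
    have h1 : c' (g * x * g⁻¹) = ∑ i ∈ Finset.range m, c (g ^ (i + 1) * x * (g ^ (i + 1))⁻¹) := by
      simp only [c']
      refine Finset.sum_congr rfl fun i _ => ?_
      congr 1
      rw [pow_succ]
      group
    have h2 : c (g ^ m * x * (g ^ m)⁻¹) = c (g ^ 0 * x * (g ^ 0)⁻¹) := by
      rw [cconj x (hNH hx) _ (hNH hm)]
      simp
    have h3 := Finset.sum_range_succ (fun i => c (g ^ i * x * (g ^ i)⁻¹)) m
    have h4 := Finset.sum_range_succ' (fun i => c (g ^ i * x * (g ^ i)⁻¹)) m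
    rw [h1]
    show _ = ∑ i ∈ Finset.range m, c (g ^ i * x * (g ^ i)⁻¹)
    rw [h3] at h4
    linarith
  have c'gm : c' (g ^ m) = m * c (g ^ m) := by
    simp only [c']
    rw [Finset.sum_congr rfl (g := fun _ => c (g ^ m))]
    · simp
    · intro i _
      congr 1
      rw [← pow_add, mul_inv_eq_iff_eq_mul, ← pow_add, add_comm]
  have hn0 : c' (g ^ m) ≠ 0 := by
    rw [c'gm]
    exact mul_ne_zero (by exact_mod_cast hm0.ne') hcm
  -- the kernel
  let M : Subgroup G :=
    { carrier := {x | x ∈ N ∧ c' x = 0}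
      mul_mem' := by
        rintro x y ⟨hx, hx'⟩ ⟨hy, hy'⟩
        exact ⟨mul_mem hx hy, by rw [c'mul x hx y hy, hx', hy', add_zero]⟩
      one_mem' := ⟨one_mem _, c'one⟩
      inv_mem' := by
        rintro x ⟨hx, hx'⟩
        exact ⟨inv_mem hx, by rw [c'inv x hx, hx', neg_zero]⟩ }
  -- the subgroup of finite index
  let ψ : N →* Multiplicative (ZMod (c' (g ^ m)).natAbs) :=
    { toFun := fun x => Multiplicative.ofAdd ((c' x : ℤ) : ZMod (c' (g ^ m)).natAbs)
      map_one' := by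
        show Multiplicative.ofAdd ((c' 1 : ℤ) : ZMod (c' (g ^ m)).natAbs) = 1
        rw [c'one]
        simp
      map_mul' := by
        intro x y
        show Multiplicative.ofAdd ((c' ((x : G) * y) : ℤ) : ZMod (c' (g ^ m)).natAbs) = _
        rw [c'mul _ x.2 _ y.2, ← ofAdd_add]
        push_cast
        rfl }
  have : NeZero (c' (g ^ m)).natAbs := ⟨Int.natAbs_ne_zero.2 hn0⟩
  have hψ : ψ.ker.FiniteIndex := inferInstance
  let L : Subgroup G := ψ.ker.map N.subtype
  have hL : L.FiniteIndex := by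
    refine ⟨?_⟩
    show (ψ.ker.map N.subtype).index ≠ 0
    rw [Subgroup.index_map_subtype]
    exact mul_ne_zero hψ.index_ne_zero hNf.index_ne_zero
  have hgz : ∀ n : ℤ, ∀ x ∈ M, g ^ n * x * (g ^ n)⁻¹ ∈ M := by
    have hp : ∀ x ∈ M, g * x * g⁻¹ ∈ M := fun x hx =>
      ⟨hNn.conj_mem x hx.1 g, by rw [c'g x hx.1]; exact hx.2⟩
    have hp' : ∀ x ∈ M, g⁻¹ * x * g ∈ M := by
      intro x hx
      have h1 : g⁻¹ * x * g ∈ N := by simpa using hNn.conj_mem x hx.1 g⁻¹
      refine ⟨h1, ?_⟩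
      have h2 := c'g _ h1
      have h3 : g * (g⁻¹ * x * g) * g⁻¹ = x := by group
      rw [h3] at h2
      rw [← h2]
      exact hx.2
    have hnat : ∀ n : ℕ, ∀ x ∈ M, g ^ n * x * (g ^ n)⁻¹ ∈ M := by
      intro n
      induction n with
      | zero => intro x hx; simpa using hx
      | succ n ih =>
        intro x hx
        have h1 : g ^ (n + 1) * x * (g ^ (n + 1))⁻¹ = g ^ n * (g * x * g⁻¹) * (g ^ n)⁻¹ := by
          rw [pow_succ]; group
        rw [h1]
        exact ih _ (hp x hx)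
    have hnat' : ∀ n : ℕ, ∀ x ∈ M, (g ^ n)⁻¹ * x * (g ^ n) ∈ M := by
      intro n
      induction n with
      | zero => intro x hx; simpa using hx
      | succ n ih =>
        intro x hx
        have h1 : (g ^ (n + 1))⁻¹ * x * (g ^ (n + 1)) = (g ^ n)⁻¹ * (g⁻¹ * x * g) * (g ^ n) := by
          rw [pow_succ']; group
        rw [h1]
        exact ih _ (hp' x hx)
    intro n x hx
    obtain ⟨n, rfl | rfl⟩ := n.eq_nat_or_neg
    · rw [zpow_natCast]; exact hnat n x hx
    · rw [zpow_neg, zpow_natCast, inv_inv]; exact hnat' n x hx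
  refine retr g M ?_ ?_ L hL ?_
  · rintro y ⟨n, rfl⟩ x hx
    exact hgz n x hx
  · rintro y ⟨n, rfl⟩ hy
    have h1 : c' ((g ^ n) ^ m) = m * c' (g ^ n) := c'pow _ hy.1 m
    have h2 : ((g ^ n) ^ m : G) = (g ^ m) ^ n := by
      rw [← zpow_natCast, ← zpow_natCast, ← zpow_mul, ← zpow_mul, mul_comm]
    rw [h2, c'zpow _ hm, hy.2, mul_zero] at h1
    have h3 : n = 0 := by
      rcases mul_eq_zero.1 h1 with h | h
      · exact h
      · exact absurd h hn0
    rw [h3]
    simp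
  · rintro x ⟨y, hy, rfl⟩
    have h1 : ((c' y : ℤ) : ZMod (c' (g ^ m)).natAbs) = 0 := by
      have h2 : ψ y = 1 := hy
      have h3 : Multiplicative.ofAdd ((c' y : ℤ) : ZMod (c' (g ^ m)).natAbs) =
        Multiplicative.ofAdd 0 := h2
      exact Multiplicative.ofAdd.injective h3
    rw [ZMod.intCast_zmod_eq_zero_iff_dvd] at h1
    have h4 : c' (g ^ m) ∣ c' y := by
      rw [← Int.natAbs_dvd]
      exact h1
    obtain ⟨n, hn⟩ := h4
    refine ⟨(g ^ m) ^ n, ?_, ?_, ?_⟩
    · exact ⟨m * n, by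
        show g ^ ((m : ℤ) * n) = _
        rw [zpow_mul, zpow_natCast]⟩
    · exact mul_mem y.2 (inv_mem (zpow_mem hm n))
    · show c' ((y : G) * ((g ^ m) ^ n)⁻¹) = 0
      rw [c'mul _ y.2 _ (inv_mem (zpow_mem hm n)), c'inv _ (zpow_mem hm n), c'zpow _ hm, hn]
      ring

end Run7.h244.VR
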