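import Mathlib

/-!
# Property (VRC) for amalgamated products over virtually cyclic subgroups: definitions
-/

set_option autoImplicit false

namespace Run7.h244.VR

universe u

/-- `H` is a virtual retract of `G`: there are a subgroup `K` of finite index which contains `H` and a
homomorphism `ρ : K → H` which is the identity on `H`. -/
def IsVirtualRetract {G : Type u} [Group G] (H : Subgroup G) : Prop :=
  ∃ K : Subgroup G, K.FiniteIndex ∧ H ≤ K ∧ ∃ ρ : K →* H, ∀ x : K, (x : G) ∈ H → (ρ x : G) = x

/-- Property (VRC): every cyclic subgroup is a virtual retract. -/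
def VRC (G : Type u) [Group G] : Prop :=
  ∀ g : G, IsVirtualRetract (Subgroup.zpowers g)

/-- A group is virtually cyclic if it has a cyclic subgroup of finite index. -/
def VirtuallyCyclic (G : Type u) [Group G] : Prop :=
  ∃ g : G, (Subgroup.zpowers g).FiniteIndex

/-- The normal subgroup of the free product `P * Q` which is generated by the elements
`r (e r)⁻¹`, for `r` in the subgroup `R` of `P` and `e` an isomorphism of `R` with the subgroup `S` of `Q`. -/
def amalgKernel {P Q : Type u} [Group P] [Group Q] (R : Subgroup P) (S : Subgroup Q) (e : R ≃* S) :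
    Subgroup (Monoid.Coprod P Q) :=
  Subgroup.normalClosure
    {x | ∃ r : R, x = Monoid.Coprod.inl (r : P) * (Monoid.Coprod.inr ((e r : S) : Q))⁻¹}

instance {P Q : Type u} [Group P] [Group Q] (R : Subgroup P) (S : Subgroup Q) (e : R ≃* S) :
    (amalgKernel R S e).Normal := Subgroup.normalClosure_normal

/-- The amalgamated free product `P *_{R = S} Q`. -/
abbrev Amalg {P Q : Type u} [Group P] [Group Q] (R : Subgroup P) (S : Subgroup Q) (e : R ≃* S) :
    Type u := Monoid.Coprod P Q ⧸ amalgKernel R S e

/-- `G` is the amalgamated product of `P` and `Q` along `i : R → P` and `j : R → Q`. -/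
structure IsAmalg {P Q R G : Type u} [Group P] [Group Q] [Group R] [Group G]
    (i : R →* P) (j : R →* Q) (a : P →* G) (b : Q →* G) : Prop where
  comm : ∀ r, a (i r) = b (j r)
  gen : a.range ⊔ b.range = ⊤
  lift : ∀ (H : Type u) [Group H] (f : P →* H) (f' : Q →* H), (∀ r, f (i r) = f' (j r)) →
    ∃ F : G →* H, (∀ x, F (a x) = f x) ∧ ∀ y, F (b y) = f' y

theorem IsAmalg.symm {P Q R G : Type u} [Group P] [Group Q] [Group R] [Group G]
    {i : R →* P} {j : R →* Q} {a : P →* G} {b : Q →* G} (h : IsAmalg i j a b) :
    IsAmalg j i b a where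
  comm r := (h.comm r).symm
  gen := by rw [sup_comm]; exact h.gen
  lift H _ f f' hf := by
    obtain ⟨F, h1, h2⟩ := h.lift H f' f (fun r => (hf r).symm)
    exact ⟨F, h2, h1⟩

theorem isAmalg {P Q : Type u} [Group P] [Group Q] (R : Subgroup P) (S : Subgroup Q) (e : R ≃* S) :
    IsAmalg R.subtype (S.subtype.comp e.toMonoidHom)
      ((QuotientGroup.mk' (amalgKernel R S e)).comp Monoid.Coprod.inl)
      ((QuotientGroup.mk' (amalgKernel R S e)).comp Monoid.Coprod.inr) where
  comm r := by
    show (QuotientGroup.mk' (amalgKernel R S e)) (Monoid.Coprod.inl (r : P)) =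
      (QuotientGroup.mk' (amalgKernel R S e)) (Monoid.Coprod.inr ((e r : S) : Q))
    rw [← mul_inv_eq_one, ← map_inv, ← map_mul]
    exact (QuotientGroup.eq_one_iff _).2 (Subgroup.subset_normalClosure ⟨r, rfl⟩)
  gen := by
    rw [← MonoidHom.map_range, ← MonoidHom.map_range, ← Subgroup.map_sup,
      Monoid.Coprod.range_inl_sup_range_inr]
    exact Subgroup.map_top_of_surjective _ (QuotientGroup.mk'_surjective _)
  lift H _ f f' hf := by
    have h2 : amalgKernel R S e ≤ (Monoid.Coprod.lift f f').ker := by
      apply Subgroup.normalClosure_le_normal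
      rintro x ⟨r, rfl⟩
      show Monoid.Coprod.lift f f' _ = 1
      rw [map_mul, map_inv, Monoid.Coprod.lift_apply_inl, Monoid.Coprod.lift_apply_inr,
        mul_inv_eq_one]
      exact hf r
    exact ⟨QuotientGroup.lift _ (Monoid.Coprod.lift f f') h2, fun x =>
      Monoid.Coprod.lift_apply_inl f f' x, fun y => Monoid.Coprod.lift_apply_inr f f' y⟩

end Run7.h244.VR
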