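import Pool.Agent.Run7.h244.VR.SF

/-!
# Glueing the actions of the vertex groups
-/

set_option autoImplicit false

namespace Run7.h244.VR

open Subgroup

universe u

/-- permutations of `X × ℤ` which commute with the translations of `ℤ` -/
def Sh {X : Type u} (f : Equiv.Perm (X × ℤ)) : Prop :=
  ∀ x z w, f (x, z + w) = ((f (x, z)).1, (f (x, z)).2 + w)

theorem Sh.mul {X : Type u} {f g : Equiv.Perm (X × ℤ)} (hf : Sh f) (hg : Sh g) : Sh (f * g) := by
  intro x z w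
  rw [Equiv.Perm.mul_apply, Equiv.Perm.mul_apply, hg, hf]

theorem Sh.one {X : Type u} : Sh (1 : Equiv.Perm (X × ℤ)) := fun _ _ _ => rfl

theorem Sh.inv {X : Type u} {f : Equiv.Perm (X × ℤ)} (hf : Sh f) : Sh f⁻¹ := by
  intro x z w
  rw [Equiv.Perm.inv_eq_iff_eq]
  have h1 := hf (f⁻¹ (x, z)).1 (f⁻¹ (x, z)).2 w
  rw [h1]
  have h2 : f ((f⁻¹ (x, z)).1, (f⁻¹ (x, z)).2) = (x, z) := by
    show f (f⁻¹ (x, z)) = (x, z)
    exact Equiv.apply_symm_apply f (x, z)
  rw [h2]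

section
variable {G : Type u} [Group G]

/-- The criterion in terms of an action on `X × ℤ`. -/
theorem crit_F (g : G) {X : Type u} [Finite X] (F : G →* Equiv.Perm (X × ℤ)) (hsh : ∀ h, Sh (F h))
    (ω : X) (k : ℕ) (c : ℤ) (hk : F (g ^ k) (ω, 0) = (ω, c)) (hc : c ≠ 0) :
    IsVirtualRetract (zpowers g) := by
  classical
  have hz : ∀ (h : G) (x : X) (z : ℤ), F h (x, z) = ((F h (x, 0)).1, (F h (x, 0)).2 + z) := by
    intro h x z
    have := hsh h x 0 z
    rwa [zero_add] at this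
  let H : Subgroup G :=
    { carrier := {h | (F h (ω, 0)).1 = ω}
      mul_mem' := by
        intro x y hx hy
        have hx' : (F x (ω, 0)).1 = ω := hx
        have hy' : (F y (ω, 0)).1 = ω := hy
        have h1 : F y (ω, 0) = (ω, (F y (ω, 0)).2) := Prod.ext hy' rfl
        show (F (x * y) (ω, 0)).1 = ω
        rw [map_mul, Equiv.Perm.mul_apply, h1, hz, hx']
      one_mem' := by
        show (F 1 (ω, 0)).1 = ω
        rw [map_one]
        rfl
      inv_mem' := by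
        intro x hx
        have hx' : (F x (ω, 0)).1 = ω := hx
        have h1 : F x (ω, - (F x (ω, 0)).2) = (ω, 0) := by
          rw [hz, hx']
          simp
        show (F x⁻¹ (ω, 0)).1 = ω
        rw [map_inv, Equiv.Perm.inv_eq_iff_eq.2 h1.symm] }
  have hH : H.FiniteIndex := by
    rw [finiteIndex_iff_finite_quotient]
    refine Finite.of_injective (fun q : G ⧸ H => (F q.out (ω, 0)).1) ?_
    intro q q' hq
    have hq' : (F q.out (ω, 0)).1 = (F q'.out (ω, 0)).1 := hq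
    rw [← QuotientGroup.out_eq' q, ← QuotientGroup.out_eq' q']
    refine QuotientGroup.eq.2 ?_
    show (F (q.out⁻¹ * q'.out) (ω, 0)).1 = ω
    have h1 : F q.out (ω, (F q'.out (ω, 0)).2 - (F q.out (ω, 0)).2) = F q'.out (ω, 0) := by
      rw [hz]
      exact Prod.ext hq' (by simp)
    rw [map_mul, Equiv.Perm.mul_apply, map_inv, Equiv.Perm.inv_eq_iff_eq.2 h1.symm]
  refine crit_add g H hH (fun h => (F h (ω, 0)).2) ?_ k ?_ ?_
  · intro x hx y hy
    have hx' : (F x (ω, 0)).1 = ω := hx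
    have hy' : (F y (ω, 0)).1 = ω := hy
    have h1 : F y (ω, 0) = (ω, (F y (ω, 0)).2) := Prod.ext hy' rfl
    show (F (x * y) (ω, 0)).2 = _
    rw [map_mul, Equiv.Perm.mul_apply, h1, hz]
  · show (F (g ^ k) (ω, 0)).1 = ω
    rw [hk]
  · show (F (g ^ k) (ω, 0)).2 ≠ 0
    rw [hk]
    exact hc

end

variable {P Q R G : Type u} [Group P] [Group Q] [Group R] [Group G]
  {i : R →* P} {j : R →* Q} {a : P →* G} {b : Q →* G}

/-- induction over an amalgamated product -/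
theorem IsAmalg.ind (h : IsAmalg i j a b) (K : Subgroup G) (h1 : ∀ p, a p ∈ K) (h2 : ∀ q, b q ∈ K)
    (g : G) : g ∈ K := by
  have h3 : a.range ⊔ b.range ≤ K := by
    rw [sup_le_iff]
    exact ⟨by rintro _ ⟨p, rfl⟩; exact h1 p, by rintro _ ⟨q, rfl⟩; exact h2 q⟩
  rw [h.gen] at h3
  exact h3 (mem_top g)

theorem IsAmalg.sh (h : IsAmalg i j a b) {X : Type u} (F : G →* Equiv.Perm (X × ℤ))
    (h1 : ∀ p, Sh (F (a p))) (h2 : ∀ q, Sh (F (b q))) (g : G) : Sh (F g) := by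
  let K : Subgroup G :=
    { carrier := {g | Sh (F g)}
      mul_mem' := by
        intro x y hx hy
        show Sh (F (x * y))
        rw [map_mul]
        exact Sh.mul hx hy
      one_mem' := by
        show Sh (F 1)
        rw [map_one]
        exact Sh.one
      inv_mem' := by
        intro x hx
        show Sh (F x⁻¹)
        rw [map_inv]
        exact Sh.inv hx }
  exact h.ind K h1 h2 g

/-- The finite action. -/
theorem glue0 (h : IsAmalg i j a b) {S T U : Type u} [MulAction R S]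
    (F : P →* Equiv.Perm (S × T)) (F' : Q →* Equiv.Perm (S × U))
    (hF : ∀ ρ s t, F (i ρ) (s, t) = (ρ • s, t)) (hF' : ∀ ρ s t, F' (j ρ) (s, t) = (ρ • s, t)) :
    ∃ Φ : G →* Equiv.Perm (S × T × U),
      (∀ p s t u, Φ (a p) (s, t, u) = ((F p (s, t)).1, (F p (s, t)).2, u)) ∧
      (∀ q s t u, Φ (b q) (s, t, u) = ((F' q (s, u)).1, t, (F' q (s, u)).2)) := by
  obtain ⟨f, hf⟩ := mkPerm (P := P) (X := S × T × U)
    (fun p x => ((F p (x.1, x.2.1)).1, (F p (x.1, x.2.1)).2, x.2.2))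
    (fun x => by simp) (fun p q x => by simp)
  obtain ⟨f', hf'⟩ := mkPerm (P := Q) (X := S × T × U)
    (fun p x => ((F' p (x.1, x.2.2)).1, x.2.1, (F' p (x.1, x.2.2)).2))
    (fun x => by simp) (fun p q x => by simp)
  obtain ⟨Φ, h1, h2⟩ := h.lift _ f f' (by
    intro r
    ext1 x
    obtain ⟨s, t, u⟩ := x
    rw [hf, hf', hF, hF'])
  refine ⟨Φ, fun p s t u => ?_, fun q s t u => ?_⟩
  · rw [h1, hf]
  · rw [h2, hf']

/-- The action on the product with `ℤ`. -/
theorem glueZ (h : IsAmalg i j a b) {S T U : Type u} [MulAction R S]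
    (F : P →* Equiv.Perm (S × T)) (F' : Q →* Equiv.Perm (S × U))
    (hF : ∀ ρ s t, F (i ρ) (s, t) = (ρ • s, t)) (hF' : ∀ ρ s t, F' (j ρ) (s, t) = (ρ • s, t))
    (α : P → S × T → ℤ) (β : Q → S × U → ℤ) (n : R → S → ℤ) (A : T → ℤ) (B : U → ℤ)
    (hα : ∀ p p' x, α (p * p') x = α p (F p' x) + α p' x)
    (hβ : ∀ p p' x, β (p * p') x = β p (F' p' x) + β p' x)
    (hαR : ∀ ρ s t, α (i ρ) (s, t) = n ρ s * A t) (hβR : ∀ ρ s t, β (j ρ) (s, t) = n ρ s * B t)
    (l : U → ℤ) (m : T → ℤ) (hlm : ∀ t u, l u * A t = m t * B u) :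
    ∃ Φ : G →* Equiv.Perm ((S × T × U) × ℤ), (∀ g, Sh (Φ g)) ∧
      (∀ p s t u z, Φ (a p) ((s, t, u), z) =
        (((F p (s, t)).1, (F p (s, t)).2, u), z + l u * α p (s, t))) ∧
      (∀ q s t u z, Φ (b q) ((s, t, u), z) =
        (((F' q (s, u)).1, t, (F' q (s, u)).2), z + m t * β q (s, u))) := by
  have hα1 : ∀ x, α 1 x = 0 := by
    intro x
    have := hα 1 1 x
    rw [mul_one, map_one, Equiv.Perm.one_apply] at this
    linarith
  have hβ1 : ∀ x, β 1 x = 0 := by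
    intro x
    have := hβ 1 1 x
    rw [mul_one, map_one, Equiv.Perm.one_apply] at this
    linarith
  obtain ⟨f, hf⟩ := mkPerm (P := P) (X := (S × T × U) × ℤ)
    (fun p x => (((F p (x.1.1, x.1.2.1)).1, (F p (x.1.1, x.1.2.1)).2, x.1.2.2),
      x.2 + l x.1.2.2 * α p (x.1.1, x.1.2.1)))
    (fun x => by simp [hα1]) (fun p q x => by
      simp only [map_mul, Equiv.Perm.mul_apply, hα, Prod.mk.eta]
      congr 1
      ring)
  obtain ⟨f', hf'⟩ := mkPerm (P := Q) (X := (S × T × U) × ℤ)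
    (fun p x => (((F' p (x.1.1, x.1.2.2)).1, x.1.2.1, (F' p (x.1.1, x.1.2.2)).2),
      x.2 + m x.1.2.1 * β p (x.1.1, x.1.2.2)))
    (fun x => by simp [hβ1]) (fun p q x => by
      simp only [map_mul, Equiv.Perm.mul_apply, hβ, Prod.mk.eta]
      congr 1
      ring)
  obtain ⟨Φ, h1, h2⟩ := h.lift _ f f' (by
    intro r
    ext1 x
    obtain ⟨⟨s, t, u⟩, z⟩ := x
    rw [hf, hf', hF, hF', hαR, hβR]
    congr 1
    have := hlm t u
    linear_combination (n r s) * this)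
  have e1 : ∀ p s t u z, Φ (a p) ((s, t, u), z) =
        (((F p (s, t)).1, (F p (s, t)).2, u), z + l u * α p (s, t)) := by
    intro p s t u z
    rw [h1, hf]
  have e2 : ∀ q s t u z, Φ (b q) ((s, t, u), z) =
        (((F' q (s, u)).1, t, (F' q (s, u)).2), z + m t * β q (s, u)) := by
    intro q s t u z
    rw [h2, hf']
  refine ⟨Φ, h.sh Φ ?_ ?_, e1, e2⟩
  · rintro p ⟨s, t, u⟩ z w
    rw [e1, e1]
    congr 1
    ring
  · rintro p ⟨s, t, u⟩ z w
    rw [e2, e2]
    congr 1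
    ring

/-- compatible normal subgroups of finite index -/
theorem compat (hP : VRC P) (hQ : VRC Q) (hi : Function.Injective i) (hj : Function.Injective j)
    (c : R) (hc : (zpowers c).FiniteIndex) (hcase : c = 1 ∨ ¬ IsOfFinOrder c)
    (N : Subgroup P) (hN : N.Normal) (hNf : N.FiniteIndex)
    (N' : Subgroup Q) (hN' : N'.Normal) (hN'f : N'.FiniteIndex) :
    ∃ (m : ℕ) (_ : 0 < m) (N₁ : Subgroup P) (N₂ : Subgroup Q), N₁.Normal ∧ N₁.FiniteIndex ∧ N₁ ≤ N ∧
      N₁.comap i = zpowers (c ^ m) ∧ N₂.Normal ∧ N₂.FiniteIndex ∧ N₂ ≤ N' ∧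
      N₂.comap j = zpowers (c ^ m) := by
  obtain ⟨M, hM, h1⟩ := pot i hP hi c hc hcase N hN hNf
  obtain ⟨M', hM', h2⟩ := pot j hQ hj c hc hcase N' hN' hN'f
  have h3 : 0 < M * M' := Nat.mul_pos hM hM'
  obtain ⟨N₁, a1, a2, a3, a4⟩ := h1 (M * M') h3 (dvd_mul_right _ _)
  obtain ⟨N₂, b1, b2, b3, b4⟩ := h2 (M * M') h3 (dvd_mul_left _ _)
  exact ⟨M * M', h3, N₁, N₂, a1, a2, a3, a4, b1, b2, b3, b4⟩

/-- Elements of the vertex groups. -/
theorem ell (h : IsAmalg i j a b) (hP : VRC P) (hQ : VRC Q) (hi : Function.Injective i)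
    (hj : Function.Injective j) (c : R) (hc : (zpowers c).FiniteIndex)
    (hcase : c = 1 ∨ ¬ IsOfFinOrder c) (p : P) : IsVirtualRetract (zpowers (a p)) := by
  classical
  by_cases hp : IsOfFinOrder p
  · -- elements of finite order
    have hfin : Finite (zpowers p) := finite_zpowers.2 hp
    have h1 : ∀ y : zpowers p, ∃ N : Subgroup P, N.Normal ∧ N.FiniteIndex ∧
        ((y : P) ≠ 1 → (y : P) ∉ N) := by
      intro y
      by_cases hy : (y : P) = 1
      · exact ⟨⊤, inferInstance, inferInstance, fun h => absurd hy h⟩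
      · obtain ⟨N, h1, h2, h3⟩ := rf hP _ hy
        exact ⟨N, h1, h2, fun _ => h3⟩
    choose N hN hNf hN' using h1
    obtain ⟨m, hm, N₁, N₂, a1, a2, a3, a4, b1, b2, b3, b4⟩ := compat (i := i) (j := j) hP hQ hi hj c hc
      hcase (⨅ y, N y) (Subgroup.normal_iInf_normal hN) (finiteIndex_iInf hNf) ⊤ inferInstance
      inferInstance
    obtain ⟨T, hT, F, α, A, x₁, p1, p2, p3, p4, p5, p6, p7, p8⟩ := std i N₁ a1 a2 (c ^ m) a4 (fun _ => 0)
      (fun _ _ _ _ => rfl)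
    obtain ⟨U, hU, F', β, B, y₁, q1, q2, q3, q4, q5, q6, q7, q8⟩ := std j N₂ b1 b2 (c ^ m) b4 (fun _ => 0)
      (fun _ _ _ _ => rfl)
    obtain ⟨Φ, hΦ, hΦ'⟩ := glue0 h F F' p1 q1
    have hS : Finite (R ⧸ zpowers (c ^ m)) := by
      have h1 : Finite (P ⧸ N₁) := by
        have := a2
        infer_instance
      refine Finite.of_injective (fun s : R ⧸ zpowers (c ^ m) => ((i s.out : P) : P ⧸ N₁)) ?_
      intro s s' hs
      have h2 : (i s.out)⁻¹ * i s'.out ∈ N₁ := QuotientGroup.eq.1 hs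
      rw [← map_inv, ← map_mul] at h2
      have h3 : s.out⁻¹ * s'.out ∈ N₁.comap i := h2
      rw [a4] at h3
      rw [← QuotientGroup.out_eq' s, ← QuotientGroup.out_eq' s']
      exact QuotientGroup.eq.2 h3
    refine crit_fin (a p) Φ.ker inferInstance inferInstance ?_
    rintro _ ⟨k, rfl⟩ hk
    have h2 : Φ (a (p ^ k)) = 1 := by
      have : Φ ((a p) ^ k) = 1 := hk
      rwa [← map_zpow] at this
    have h3 : p ^ k ∈ N₁ := by
      refine p6 (p ^ k) x₁ ?_
      have h4 := hΦ (p ^ k) x₁.1 x₁.2 y₁.2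
      rw [h2] at h4
      have h5 : (x₁.1, x₁.2, y₁.2) = ((F (p ^ k) (x₁.1, x₁.2)).1, (F (p ^ k) (x₁.1, x₁.2)).2, y₁.2) := h4
      simp only [Prod.mk.injEq] at h5
      exact (Prod.ext h5.1 h5.2.1).symm
    have h4 : p ^ k = 1 := by
      by_contra hne
      exact hN' ⟨p ^ k, ⟨k, rfl⟩⟩ hne ((Subgroup.mem_iInf.1 (a3 h3)) _)
    show (a p) ^ k = 1
    rw [← map_zpow, h4, map_one]
  · -- elements of infinite order
    obtain ⟨K, hK, _, φ, hφ, hφp⟩ := hom_of_vrc hP p hp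
    -- the homomorphism on the side of `Q`
    obtain ⟨K', hK', ψ, hψ, hψc⟩ : ∃ K' : Subgroup Q, K'.FiniteIndex ∧ ∃ ψ : Q → ℤ, AddOn K' ψ ∧
        (c = 1 ∨ ∀ k : ℤ, ψ ((j c) ^ k) = k) := by
      rcases hcase with h1 | h1
      · exact ⟨⊤, inferInstance, fun _ => 0, fun _ _ _ _ => rfl, Or.inl h1⟩
      · have h2 : ¬ IsOfFinOrder (j c) := by
          intro h
          apply h1
          rw [isOfFinOrder_iff_pow_eq_one] at h ⊢
          obtain ⟨n, hn, hn'⟩ := h
          refine ⟨n, hn, hj ?_⟩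
          rw [map_pow, hn', map_one]
        obtain ⟨K', h3, _, ψ, h4, h5⟩ := hom_of_vrc hQ (j c) h2
        exact ⟨K', h3, ψ, h4, Or.inr h5⟩
    obtain ⟨m, hm, N₁, N₂, a1, a2, a3, a4, b1, b2, b3, b4⟩ := compat (i := i) (j := j) hP hQ hi hj c hc
      hcase K.normalCore (normalCore_normal _) (fi_normalCore hK) K'.normalCore (normalCore_normal _)
      (fi_normalCore hK')
    have a5 : N₁ ≤ K := le_trans a3 (normalCore_le _)
    have b5 : N₂ ≤ K' := le_trans b3 (normalCore_le _)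
    obtain ⟨T, hT, F, α, A, x₁, p1, p2, p3, p4, p5, p6, p7, p8⟩ := std i N₁ a1 a2 (c ^ m) a4 φ
      (hφ.mono a5)
    obtain ⟨U, hU, F', β, B, y₁, q1, q2, q3, q4, q5, q6, q7, q8⟩ := std j N₂ b1 b2 (c ^ m) b4 ψ
      (hψ.mono b5)
    -- the scaling factors
    obtain ⟨l, μ, hlm, u₁, hu₁⟩ : ∃ (l : U → ℤ) (μ : T → ℤ), (∀ t u, l u * A t = μ t * B u) ∧
        ∃ u₁, l u₁ ≠ 0 := by
      rcases hψc with h1 | h1
      · have hd : c ^ m = 1 := by rw [h1, one_pow]
        refine ⟨fun _ => 1, fun _ => 0, fun t u => ?_, y₁.2, one_ne_zero⟩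
        rw [p8 hd t]
        ring
      · refine ⟨B, A, fun t u => mul_comm _ _, y₁.2, ?_⟩
        intro h2
        have h3 := q3 (c ^ m) y₁.1 y₁.2
        rw [h2, mul_zero] at h3
        have h4 : j (c ^ m) ∈ N₂ := by
          have : c ^ m ∈ N₂.comap j := by rw [b4]; exact mem_zpowers _
          exact this
        have h5 := q5 _ h4
        have h6 : y₁ = (y₁.1, y₁.2) := rfl
        rw [h6, h3, map_pow, ← zpow_natCast, h1] at h5
        exact hm.ne (by exact_mod_cast h5)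
    obtain ⟨Φ, hΦs, hΦ, hΦ'⟩ := glueZ h F F' p1 q1 α β (nn (c ^ m)) A B p2 q2 p3 q3 l μ hlm
    have hS : Finite (R ⧸ zpowers (c ^ m)) := by
      have h1 : Finite (P ⧸ N₁) := by
        have := a2
        infer_instance
      refine Finite.of_injective (fun s : R ⧸ zpowers (c ^ m) => ((i s.out : P) : P ⧸ N₁)) ?_
      intro s s' hs
      have h2 : (i s.out)⁻¹ * i s'.out ∈ N₁ := QuotientGroup.eq.1 hs
      rw [← map_inv, ← map_mul] at h2
      have h3 : s.out⁻¹ * s'.out ∈ N₁.comap i := h2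
      rw [a4] at h3
      rw [← QuotientGroup.out_eq' s, ← QuotientGroup.out_eq' s']
      exact QuotientGroup.eq.2 h3
    have hpN : p ^ N₁.index ∈ N₁ := Subgroup.pow_index_mem N₁ p
    refine crit_F (a p) Φ hΦs (x₁.1, x₁.2, u₁) N₁.index (l u₁ * N₁.index) ?_ ?_
    · rw [← map_pow, hΦ]
      have h6 : (x₁.1, x₁.2) = x₁ := rfl
      have h7 : φ (p ^ N₁.index) = N₁.index := by
        have := hφp N₁.index
        rwa [zpow_natCast] at this
      rw [h6, p4 _ hpN, p5 _ hpN, h7, zero_add]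
    · exact mul_ne_zero hu₁ (by exact_mod_cast a2.index_ne_zero)

end Run7.h244.VR
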