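import Pool.Agent.Run7.h244.VR.Glue

/-!
# Hyperbolic elements of amalgamated products
-/

set_option autoImplicit false

namespace Run7.h244.VR

open Subgroup

universe u

variable {P Q R G : Type u} [Group P] [Group Q] [Group R] [Group G]
  {i : R →* P} {j : R →* Q} {a : P →* G} {b : Q →* G}

/-- Coverings: the action of `Q` is twisted by the coboundary of an `R`-invariant function. -/
theorem cover {X : Type u} {V : Type*} [AddCommGroup V]
    (F : G →* Equiv.Perm X) (hab : ∀ r, a (i r) = b (j r))
    (hl : ∀ (f : P →* Equiv.Perm (X × V)) (f' : Q →* Equiv.Perm (X × V)), (∀ r, f (i r) = f' (j r)) →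
      ∃ Φ : G →* Equiv.Perm (X × V), (∀ x, Φ (a x) = f x) ∧ ∀ y, Φ (b y) = f' y)
    (f : X → V) (hf : ∀ r x, f (F (a (i r)) x) = f x) :
    ∃ Φ : G →* Equiv.Perm (X × V), (∀ p x v, Φ (a p) (x, v) = (F (a p) x, v)) ∧
      (∀ q x v, Φ (b q) (x, v) = (F (b q) x, v + (f (F (b q) x) - f x))) := by
  let A1 : MulAction P (X × V) :=
    { smul := fun p x => (F (a p) x.1, x.2)
      one_smul := fun x => by
        show (F (a 1) x.1, x.2) = x
        simp
      mul_smul := fun p q x => by
        show (F (a (p * q)) x.1, x.2) = (F (a p) (F (a q) x.1), x.2)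
        simp }
  let A2 : MulAction Q (X × V) :=
    { smul := fun p x => (F (b p) x.1, x.2 + (f (F (b p) x.1) - f x.1))
      one_smul := fun x => by
        show (F (b 1) x.1, x.2 + (f (F (b 1) x.1) - f x.1)) = x
        simp
      mul_smul := fun p q x => by
        show (F (b (p * q)) x.1, x.2 + (f (F (b (p * q)) x.1) - f x.1)) =
          (F (b p) (F (b q) x.1), x.2 + (f (F (b q) x.1) - f x.1) +
            (f (F (b p) (F (b q) x.1)) - f (F (b q) x.1)))
        simp only [map_mul, Equiv.Perm.mul_apply, Prod.mk.injEq, true_and]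
        abel }
  obtain ⟨Φ, h1, h2⟩ := hl (@MulAction.toPermHom P (X × V) _ A1)
    (@MulAction.toPermHom Q (X × V) _ A2) (by
      intro r
      ext1 x
      show (F (a (i r)) x.1, x.2) = (F (b (j r)) x.1, x.2 + (f (F (b (j r)) x.1) - f x.1))
      rw [← hab, hf]
      simp)
  refine ⟨Φ, fun p x v => ?_, fun q x v => ?_⟩
  · rw [h1]
    rfl
  · rw [h2]
    rfl

/-- the letters -/
def ll (a : P →* G) (b : Q →* G) (y : ℕ → P × Q) (n : ℕ) : G :=
  if n % 2 = 0 then b (y (n / 2)).2 else a (y (n / 2)).1

/-- the prefixes -/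
def VV (a : P →* G) (b : Q →* G) (y : ℕ → P × Q) : ℕ → G
  | 0 => 1
  | n + 1 => ll a b y n * VV a b y n

theorem ll_even (y : ℕ → P × Q) {n : ℕ} (hn : n % 2 = 0) : ll a b y n = b (y (n / 2)).2 := by
  rw [ll, if_pos hn]

theorem ll_odd (y : ℕ → P × Q) {n : ℕ} (hn : ¬ n % 2 = 0) : ll a b y n = a (y (n / 2)).1 := by
  rw [ll, if_neg hn]

/-- the relation of lying in one orbit of `R` -/
def orb (i : R →* P) (a : P →* G) {X : Type u} (F : G →* Equiv.Perm X) (x x' : X) : Prop :=
  ∃ r, F (a (i r)) x = x'

theorem orb.symm {X : Type u} {F : G →* Equiv.Perm X} {x x' : X} (h : orb i a F x x') :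
    orb i a F x' x := by
  obtain ⟨r, rfl⟩ := h
  refine ⟨r⁻¹, ?_⟩
  rw [map_inv, map_inv, map_inv]
  exact Equiv.symm_apply_apply _ _

theorem orb.trans {X : Type u} {F : G →* Equiv.Perm X} {x x' x'' : X} (h : orb i a F x x')
    (h' : orb i a F x' x'') : orb i a F x x'' := by
  obtain ⟨r, rfl⟩ := h
  obtain ⟨r', rfl⟩ := h'
  exact ⟨r' * r, by rw [map_mul, map_mul, map_mul]; rfl⟩

theorem orb.refl {X : Type u} {F : G →* Equiv.Perm X} (x : X) : orb i a F x x :=
  ⟨1, by simp⟩

open Classical in
/-- the indicator functions of the orbits of `R` -/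
noncomputable def ind (i : R →* P) (a : P →* G) {X : Type u} (F : G →* Equiv.Perm X) (A : Type)
    [Zero A] [One A] (y x : X) : A := if orb i a F x y then 1 else 0

theorem ind_inv {X : Type u} (F : G →* Equiv.Perm X) (A : Type) [Zero A] [One A] (y : X) (r : R)
    (x : X) : ind i a F A y (F (a (i r)) x) = ind i a F A y x := by
  unfold ind
  have h1 : orb i a F (F (a (i r)) x) y ↔ orb i a F x y :=
    ⟨fun h => orb.trans ⟨r, rfl⟩ h, fun h => orb.trans (orb.symm ⟨r, rfl⟩) h⟩
  by_cases h : orb i a F x y
  · rw [if_pos h, if_pos (h1.2 h)]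
  · rw [if_neg h, if_neg (fun h' => h (h1.1 h'))]

/-- the sum of the increments -/
noncomputable def incr {X : Type u} {V : Type*} [AddCommGroup V] (x : ℕ → X) (f : X → V) (n : ℕ) : V :=
  ∑ k ∈ Finset.range n, if k % 2 = 0 then f (x (k + 1)) - f (x k) else 0

theorem path {X : Type u} {V : Type*} [AddCommGroup V] (F : G →* Equiv.Perm X) (f : X → V)
    (Φ : G →* Equiv.Perm (X × V)) (h1 : ∀ p x v, Φ (a p) (x, v) = (F (a p) x, v))
    (h2 : ∀ q x v, Φ (b q) (x, v) = (F (b q) x, v + (f (F (b q) x) - f x)))
    (y : ℕ → P × Q) (ω : X) (n : ℕ) :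
    Φ (VV a b y n) (ω, 0) = (F (VV a b y n) ω, incr (fun n => F (VV a b y n) ω) f n) := by
  induction n with
  | zero => simp [VV, incr]
  | succ n ih =>
    have h3 : incr (fun n => F (VV a b y n) ω) f (n + 1) = incr (fun n => F (VV a b y n) ω) f n +
        (if n % 2 = 0 then f (F (VV a b y (n + 1)) ω) - f (F (VV a b y n) ω) else 0) := by
      unfold incr
      rw [Finset.sum_range_succ]
    have h4 : F (VV a b y (n + 1)) ω = F (ll a b y n) (F (VV a b y n) ω) := by
      rw [VV, map_mul]
      rfl
    rw [h3, h4, VV, map_mul, Equiv.Perm.mul_apply, ih]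
    by_cases hn : n % 2 = 0
    · rw [ll_even y hn, h2, if_pos hn]
    · rw [ll_odd y hn, h1, if_neg hn, add_zero]

/-- the coincidences -/
noncomputable def coin (i : R →* P) (a : P →* G) (b : Q →* G) (y : ℕ → P × Q) (L : ℕ) {X : Type u}
    (F : G →* Equiv.Perm X) (ω : X) : Finset (ℕ × ℕ) :=
  @Finset.filter (ℕ × ℕ) (fun p => p.1 < p.2 ∧ orb i a F (F (VV a b y p.1) ω) (F (VV a b y p.2) ω))
    (Classical.decPred _) ((Finset.range (2 * L)) ×ˢ (Finset.range (2 * L)))

theorem mem_coin (y : ℕ → P × Q) (L : ℕ) {X : Type u} (F : G →* Equiv.Perm X) (ω : X) (s t : ℕ) :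
    (s, t) ∈ coin i a b y L F ω ↔ s < t ∧ t < 2 * L ∧
      orb i a F (F (VV a b y s) ω) (F (VV a b y t) ω) := by
  unfold coin
  rw [@Finset.mem_filter _ _ (Classical.decPred _), Finset.mem_product, Finset.mem_range,
    Finset.mem_range]
  constructor
  · rintro ⟨⟨_, h2⟩, h3, h4⟩
    exact ⟨h3, h2, h4⟩
  · rintro ⟨h1, h2, h3⟩
    exact ⟨⟨lt_trans h1 h2, h2⟩, h1, h3⟩

/-- The theorem on closed paths. -/
theorem closed_path (h : IsAmalg i j a b) (y : ℕ → P × Q) (L : ℕ) (hL : 0 < L) :
    ∀ (N : ℕ) (X : Type u) [Finite X] (F : G →* Equiv.Perm X) (ω : X),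
      F (VV a b y (2 * L)) ω = ω → (∀ n x, ¬ orb i a F x (F (ll a b y n) x)) →
      (coin i a b y L F ω).card ≤ N →
      ∃ (X' : Type u) (_ : Finite X') (Φ : G →* Equiv.Perm (X' × ℤ)) (ω' : X') (c : ℤ),
        (∀ g, Sh (Φ g)) ∧ Φ (VV a b y (2 * L)) (ω', 0) = (ω', c) ∧ c ≠ 0 := by
  classical
  intro N
  induction N with
  | zero => ?_
  | succ N ih => ?_
  all_goals
    intro X _ F ω hω hNB hcard
    set x : ℕ → X := fun n => F (VV a b y n) ω with hx
    by_cases hall : ∃ f : X → ℤ, (∀ r z, f (F (a (i r)) z) = f z) ∧ incr x f (2 * L) ≠ 0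
    · obtain ⟨f, hf, hne⟩ := hall
      obtain ⟨Φ, h1, h2⟩ := cover (V := ℤ) F h.comm (h.lift _) f hf
      refine ⟨X, inferInstance, Φ, ω, incr x f (2 * L), h.sh Φ ?_ ?_, ?_, hne⟩
      · intro p z v w
        rw [h1, h1]
      · intro p z v w
        rw [h2, h2]
        congr 1
        ring
      · rw [path F f Φ h1 h2, hω]
    push Not at hall
    have hstep : ∀ n, x (n + 1) = F (ll a b y n) (x n) := by
      intro n
      show F (VV a b y (n + 1)) ω = F (ll a b y n) (F (VV a b y n) ω)
      rw [VV, map_mul]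
      rfl
    -- there is a coincidence
    have hne : (coin i a b y L F ω).Nonempty := by
      rw [Finset.nonempty_iff_ne_empty]
      intro he
      have hno : ∀ s t, s < 2 * L → t < 2 * L → s ≠ t → ¬ orb i a F (x s) (x t) := by
        intro s t hs ht hst ho
        rcases lt_or_gt_of_ne hst with h1 | h1
        · have h2 : (s, t) ∈ coin i a b y L F ω := (mem_coin y L F ω s t).2 ⟨h1, ht, ho⟩
          rw [he] at h2
          exact absurd h2 (Finset.notMem_empty _)
        · have h2 : (t, s) ∈ coin i a b y L F ω := (mem_coin y L F ω t s).2 ⟨h1, hs, ho.symm⟩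
          rw [he] at h2
          exact absurd h2 (Finset.notMem_empty _)
      have h1 := hall (ind i a F ℤ (x 1)) (ind_inv F ℤ (x 1))
      have h2 : incr x (ind i a F ℤ (x 1)) (2 * L) = 1 := by
        unfold incr
        rw [Finset.sum_eq_single 0]
        · rw [if_pos rfl]
          unfold ind
          rw [if_pos (orb.refl _), if_neg (hno 0 1 (by omega) (by omega) (by omega)), sub_zero]
        · intro k hk hk0
          rw [Finset.mem_range] at hk
          by_cases hk2 : k % 2 = 0
          · rw [if_pos hk2]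
            unfold ind
            rw [if_neg (hno (k + 1) 1 (by omega) (by omega) (by omega)),
              if_neg (hno k 1 (by omega) (by omega) (by omega)), sub_zero]
          · rw [if_neg hk2]
        · intro h3
          rw [Finset.mem_range] at h3
          omega
      rw [h2] at h1
      exact one_ne_zero h1
    first
    | (exfalso
       have := Finset.card_pos.2 hne
       omega)
    | skip
  -- a minimal coincidence
  obtain ⟨⟨s, t⟩, hst, hmin⟩ := Finset.exists_min_image (coin i a b y L F ω) (fun p => p.2 - p.1) hne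
  rw [mem_coin] at hst
  obtain ⟨hst1, hst2, hst3⟩ := hst
  have hmin' : ∀ s' t', s' < 2 * L → t' < 2 * L → orb i a F (x s') (x t') → s' < t' →
      t - s ≤ t' - s' := by
    intro s' t' _ h2 h3 h4
    exact hmin (s', t') ((mem_coin y L F ω s' t').2 ⟨h4, h2, h3⟩)
  have hst4 : s + 2 ≤ t := by
    by_contra hlt
    have h1 : t = s + 1 := by omega
    subst h1
    apply hNB s (x s)
    rw [← hstep]
    exact hst3
  -- the covering
  let f : X → (X → ZMod 2) := fun z w => ind i a F (ZMod 2) w z
  have hf : ∀ r z, f (F (a (i r)) z) = f z := by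
    intro r z
    funext w
    exact ind_inv F (ZMod 2) w r z
  obtain ⟨Φ, h1, h2⟩ := cover (V := X → ZMod 2) F h.comm (h.lift _) f hf
  have hpath : ∀ n, Φ (VV a b y n) (ω, 0) = (x n, incr x f n) := fun n => path F f Φ h1 h2 y ω n
  have hincr : ∀ n w, incr x f n w = ((incr x (ind i a F ℤ w) n : ℤ) : ZMod 2) := by
    intro n w
    unfold incr
    rw [Finset.sum_apply, Int.cast_sum]
    refine Finset.sum_congr rfl fun k _ => ?_
    by_cases hk : k % 2 = 0
    · rw [if_pos hk, if_pos hk]
      show ind i a F (ZMod 2) w (x (k + 1)) - ind i a F (ZMod 2) w (x k) = _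
      unfold ind
      split_ifs <;> simp
    · rw [if_neg hk, if_neg hk]
      simp
  have hclosed : Φ (VV a b y (2 * L)) (ω, 0) = (ω, 0) := by
    rw [hpath]
    have h3 : x (2 * L) = ω := hω
    rw [h3]
    congr 1
    funext w
    rw [hincr, hall _ (ind_inv F ℤ w)]
    rfl
  have horb : ∀ (z z' : X) (v v' : X → ZMod 2), orb i a Φ (z, v) (z', v') →
      orb i a F z z' ∧ v = v' := by
    rintro z z' v v' ⟨r, hr⟩
    rw [h1] at hr
    have h3 := Prod.mk.inj hr
    exact ⟨⟨r, h3.1⟩, h3.2⟩
  refine ih (X × (X → ZMod 2)) Φ (ω, 0) hclosed ?_ ?_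
  · rintro n ⟨z, v⟩ ho
    by_cases hn : n % 2 = 0
    · rw [ll_even y hn, h2] at ho
      have h3 := (horb _ _ _ _ ho).1
      rw [← ll_even (a := a) (b := b) y hn] at h3
      exact hNB n z h3
    · rw [ll_odd y hn, h1] at ho
      have h3 := (horb _ _ _ _ ho).1
      rw [← ll_odd (a := a) (b := b) y hn] at h3
      exact hNB n z h3
  · have hsub : coin i a b y L Φ (ω, 0) ⊂ coin i a b y L F ω := by
      rw [Finset.ssubset_iff_of_subset]
      · refine ⟨(s, t), (mem_coin y L F ω s t).2 ⟨hst1, hst2, hst3⟩, ?_⟩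
        intro hmem
        rw [mem_coin] at hmem
        obtain ⟨_, _, ho⟩ := hmem
        rw [hpath, hpath] at ho
        have h3 := (horb _ _ _ _ ho).2
        have h4 := congrFun h3 (x (s + 1))
        -- the difference
        have hno : ∀ c, s ≤ c → c ≤ t → c ≠ s + 1 → ¬ orb i a F (x c) (x (s + 1)) := by
          intro c hc1 hc2 hc3 ho'
          rcases lt_or_gt_of_ne hc3 with h5 | h5
          · have := hmin' c (s + 1) (by omega) (by omega) ho' h5
            omega
          · have := hmin' (s + 1) c (by omega) (by omega) ho'.symm h5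
            omega
        have h5 : incr x f t = incr x f s +
            ∑ k ∈ Finset.Ico s t, (if k % 2 = 0 then f (x (k + 1)) - f (x k) else 0) := by
          unfold incr
          rw [← Finset.sum_range_add_sum_Ico _ (le_of_lt hst1)]
        rw [h5, Pi.add_apply] at h4
        have h6 : (∑ k ∈ Finset.Ico s t, (if k % 2 = 0 then f (x (k + 1)) - f (x k) else 0) :
            X → ZMod 2) (x (s + 1)) = 0 := by
          have := h4
          rw [left_eq_add] at this
          exact this
        rw [Finset.sum_apply, Finset.sum_eq_single (if s % 2 = 0 then s else s + 1)] at h6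
        · by_cases hs : s % 2 = 0
          · rw [if_pos hs, if_pos hs] at h6
            have h7 : ind i a F (ZMod 2) (x (s + 1)) (x (s + 1)) -
                ind i a F (ZMod 2) (x (s + 1)) (x s) = 0 := h6
            unfold ind at h7
            rw [if_pos (orb.refl _), if_neg (hno s (le_refl s) (by omega) (by omega)), sub_zero] at h7
            exact one_ne_zero h7
          · rw [if_neg hs, if_pos (by omega)] at h6
            have h7 : ind i a F (ZMod 2) (x (s + 1)) (x (s + 1 + 1)) -
                ind i a F (ZMod 2) (x (s + 1)) (x (s + 1)) = 0 := h6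
            unfold ind at h7
            rw [if_pos (orb.refl _), if_neg (hno (s + 1 + 1) (by omega) (by omega) (by omega)),
              zero_sub] at h7
            exact (neg_ne_zero.2 one_ne_zero) h7
        · intro k hk hk0
          rw [Finset.mem_Ico] at hk
          by_cases hk2 : k % 2 = 0
          · rw [if_pos hk2]
            show ind i a F (ZMod 2) (x (s + 1)) (x (k + 1)) -
                ind i a F (ZMod 2) (x (s + 1)) (x k) = 0
            have h8 : k ≠ s ∧ k ≠ s + 1 := by
              by_cases hs : s % 2 = 0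
              · rw [if_pos hs] at hk0
                omega
              · rw [if_neg hs] at hk0
                omega
            unfold ind
            rw [if_neg (hno (k + 1) (by omega) (by omega) (by omega)),
              if_neg (hno k (by omega) (by omega) (by omega)), sub_zero]
          · rw [if_neg hk2]
            rfl
        · intro h9
          rw [Finset.mem_Ico] at h9
          exfalso
          apply h9
          split_ifs <;> omega
      · rintro ⟨s', t'⟩ hmem
        rw [mem_coin] at hmem ⊢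
        obtain ⟨h3, h4, h5⟩ := hmem
        rw [hpath, hpath] at h5
        exact ⟨h3, h4, (horb _ _ _ _ h5).1⟩
    have := Finset.card_lt_card hsub
    omega

end Run7.h244.VR
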