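import Pool.Agent.Run7.h244.VR.Hyp

/-!
# (VRC) for amalgamated products over virtually cyclic subgroups
-/

set_option autoImplicit false

namespace Run7.h244.VR

open Subgroup

universe u

variable {P Q R G : Type u} [Group P] [Group Q] [Group R] [Group G]
  {i : R →* P} {j : R →* Q} {a : P →* G} {b : Q →* G}

theorem VV_two (y : ℕ → P × Q) (m : ℕ) :
    VV a b y (2 * (m + 1)) = a (y m).1 * (b (y m).2 * VV a b y (2 * m)) := by
  have h1 : 2 * (m + 1) = 2 * m + 1 + 1 := by ring
  rw [h1, VV, VV, ll_odd y (by omega), ll_even y (by omega)]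
  have h2 : (2 * m + 1) / 2 = m := by omega
  have h3 : (2 * m) / 2 = m := by omega
  rw [h2, h3]

theorem VV_add (y : ℕ → P × Q) (n : ℕ) (hper : ∀ m, y (m + n) = y m) (m : ℕ) :
    VV a b y (2 * (m + n)) = VV a b y (2 * m) * VV a b y (2 * n) := by
  induction m with
  | zero => simp [VV]
  | succ m ih =>
    have h1 : m + 1 + n = m + n + 1 := by ring
    rw [h1, VV_two, VV_two, ih, hper]
    group

theorem VV_mul (y : ℕ → P × Q) (n : ℕ) (hper : ∀ m, y (m + n) = y m) (k : ℕ) :
    VV a b y (2 * (n * k)) = VV a b y (2 * n) ^ k := by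
  induction k with
  | zero => simp [VV]
  | succ k ih =>
    rw [Nat.mul_succ, VV_add y n hper, ih, pow_succ]

theorem fin_S {N : Subgroup P} (hN : N.FiniteIndex) (d : R) (hd : N.comap i = zpowers d) :
    Finite (R ⧸ zpowers d) := by
  have h1 : Finite (P ⧸ N) := by
    have := hN
    infer_instance
  refine Finite.of_injective (fun s : R ⧸ zpowers d => ((i s.out : P) : P ⧸ N)) ?_
  intro s s' hs
  have h2 : (i s.out)⁻¹ * i s'.out ∈ N := QuotientGroup.eq.1 hs
  rw [← map_inv, ← map_mul] at h2
  have h3 : s.out⁻¹ * s'.out ∈ N.comap i := h2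
  rw [hd] at h3
  rw [← QuotientGroup.out_eq' s, ← QuotientGroup.out_eq' s']
  exact QuotientGroup.eq.2 h3

/-- Cyclically reduced elements. -/
theorem hyp (h : IsAmalg i j a b) (hP : VRC P) (hQ : VRC Q) (hi : Function.Injective i)
    (hj : Function.Injective j) (c : R) (hc : (zpowers c).FiniteIndex)
    (hcase : c = 1 ∨ ¬ IsOfFinOrder c) (y : ℕ → P × Q) (n : ℕ) (hn : 0 < n)
    (hper : ∀ m, y (m + n) = y m) (h1 : ∀ m, (y m).1 ∉ i.range) (h2 : ∀ m, (y m).2 ∉ j.range) :
    IsVirtualRetract (zpowers (VV a b y (2 * n))) := by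
  classical
  have hmod : ∀ m, y m = y (m % n) := by
    intro m
    conv_lhs => rw [← Nat.mod_add_div m n]
    induction (m / n) with
    | zero => simp
    | succ k ih =>
      rw [Nat.mul_succ, ← add_assoc, hper, ih]
  choose N hN hNf hN' using fun m : Fin n => sep_range i hP c hc (y m).1 (h1 m)
  choose N' hN'n hN'f hN'' using fun m : Fin n => sep_range j hQ c hc (y m).2 (h2 m)
  obtain ⟨m, hm, N₁, N₂, a1, a2, a3, a4, b1, b2, b3, b4⟩ := compat (i := i) (j := j) hP hQ hi hj c hc
    hcase (⨅ m, N m) (Subgroup.normal_iInf_normal hN) (finiteIndex_iInf hNf)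
    (⨅ m, N' m) (Subgroup.normal_iInf_normal hN'n) (finiteIndex_iInf hN'f)
  obtain ⟨T, hT, F, α, A, x₁, p1, p2, p3, p4, p5, p6, p7, p8⟩ := std i N₁ a1 a2 (c ^ m) a4
    (fun _ => 0) (fun _ _ _ _ => rfl)
  obtain ⟨U, hU, F', β, B, y₁, q1, q2, q3, q4, q5, q6, q7, q8⟩ := std j N₂ b1 b2 (c ^ m) b4
    (fun _ => 0) (fun _ _ _ _ => rfl)
  obtain ⟨Φ, hΦ, hΦ'⟩ := glue0 h F F' p1 q1
  have hS : Finite (R ⧸ zpowers (c ^ m)) := fin_S a2 _ a4
  set g := VV a b y (2 * n) with hg
  obtain ⟨k, hk, hk'⟩ : ∃ k : ℕ, 0 < k ∧ (Φ g) ^ k = 1 := by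
    have := isOfFinOrder_of_finite (Φ g)
    rw [isOfFinOrder_iff_pow_eq_one] at this
    exact this
  have hpow : VV a b y (2 * (n * k)) = g ^ k := VV_mul y n hper k
  have hNB : ∀ n' x, ¬ orb i a Φ x (Φ (ll a b y n') x) := by
    rintro n' ⟨s, t, u⟩ ⟨r, hr⟩
    rw [hΦ, p1] at hr
    by_cases hn' : n' % 2 = 0
    · rw [ll_even y hn', hΦ'] at hr
      simp only [Prod.mk.injEq] at hr
      refine q7 (y (n' / 2)).2 ?_ (s, u) hr.2.2.symm
      intro r' hr'
      rw [hmod] at hr'
      exact hN'' ⟨(n' / 2) % n, Nat.mod_lt _ hn⟩ r' ((Subgroup.mem_iInf.1 (b3 hr')) _)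
    · rw [ll_odd y hn', hΦ] at hr
      simp only [Prod.mk.injEq] at hr
      refine p7 (y (n' / 2)).1 ?_ (s, t) hr.2.1.symm
      intro r' hr'
      rw [hmod] at hr'
      exact hN' ⟨(n' / 2) % n, Nat.mod_lt _ hn⟩ r' ((Subgroup.mem_iInf.1 (a3 hr')) _)
  have hω : Φ (VV a b y (2 * (n * k))) (x₁.1, x₁.2, y₁.2) = (x₁.1, x₁.2, y₁.2) := by
    rw [hpow, map_pow, hk']
    rfl
  obtain ⟨X', hX', Ψ, ω', z, hsh, hΨ, hz⟩ := closed_path h y (n * k) (Nat.mul_pos hn hk) _ _ Φ
    (x₁.1, x₁.2, y₁.2) hω hNB le_rfl
  rw [hpow] at hΨ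
  exact crit_F g Ψ hsh ω' k z hΨ hz

/-- the value of a list of pairs -/
def val (a : P →* G) (b : Q →* G) (l : List (P × Q)) : G := (l.map (fun x => a x.1 * b x.2)).prod

theorem val_nil : val a b [] = 1 := rfl

theorem val_cons (x : P × Q) (l : List (P × Q)) : val a b (x :: l) = a x.1 * b x.2 * val a b l := by
  simp [val]

theorem val_append (l l' : List (P × Q)) : val a b (l ++ l') = val a b l * val a b l' := by
  simp [val]

theorem val_seq (l : List (P × Q)) (hl : l ≠ []) :
    ∃ y : ℕ → P × Q, (∀ m, y m ∈ l) ∧ (∀ m, y (m + l.length) = y m) ∧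
      VV a b y (2 * l.length) = val a b l := by
  have hpos : 0 < l.reverse.length := by
    rw [List.length_reverse]
    exact List.length_pos_iff.2 hl
  let y : ℕ → P × Q := fun m => l.reverse[m % l.reverse.length]'(Nat.mod_lt _ hpos)
  have hy : ∀ m (hm : m < l.reverse.length), y m = l.reverse[m] := by
    intro m hm
    show l.reverse[m % l.reverse.length]'_ = _
    congr 1
    exact Nat.mod_eq_of_lt hm
  refine ⟨y, ?_, ?_, ?_⟩
  · intro m
    exact List.mem_reverse.1 (List.getElem_mem _)
  · intro m
    show l.reverse[(m + l.length) % l.reverse.length]'_ = l.reverse[m % l.reverse.length]'_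
    congr 1
    rw [List.length_reverse, Nat.add_mod_right]
  · have key : ∀ m, m ≤ l.reverse.length → VV a b y (2 * m) = val a b ((l.reverse.take m).reverse) := by
      intro m
      induction m with
      | zero => intro _; simp [VV, val]
      | succ m ih =>
        intro hm
        rw [VV_two, ih (by omega), hy m (by omega), List.take_succ_eq_append_getElem (by omega),
          List.reverse_append, List.reverse_singleton, List.singleton_append, val_cons]
        group
    have h1 := key l.reverse.length le_rfl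
    rw [List.take_length, List.reverse_reverse, List.length_reverse] at h1
    exact h1

theorem exists_val (h : IsAmalg i j a b) (g : G) : ∃ l, val a b l = g := by
  let K : Subgroup G :=
    { carrier := {g | ∃ l, val a b l = g}
      mul_mem' := by
        rintro _ _ ⟨l, rfl⟩ ⟨l', rfl⟩
        exact ⟨l ++ l', val_append l l'⟩
      one_mem' := ⟨[], rfl⟩
      inv_mem' := by
        rintro _ ⟨l, rfl⟩
        induction l with
        | nil => exact ⟨[], by simp [val_nil]⟩
        | cons x l ih =>
          obtain ⟨l', hl'⟩ := ih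
          refine ⟨l' ++ [(1, x.2⁻¹), (x.1⁻¹, 1)], ?_⟩
          rw [val_append, hl', val_cons, val_cons, val_cons, val_nil]
          simp only [map_one, map_inv]
          group }
  exact h.ind K (fun p => ⟨[(p, 1)], by simp [val]⟩) (fun q => ⟨[(1, q)], by simp [val]⟩) g

theorem vrc_amalg (h : IsAmalg i j a b) (hP : VRC P) (hQ : VRC Q) (hi : Function.Injective i)
    (hj : Function.Injective j) (c : R) (hc : (zpowers c).FiniteIndex)
    (hcase : c = 1 ∨ ¬ IsOfFinOrder c) : VRC G := by
  classical
  have e1 : ∀ p, IsVirtualRetract (zpowers (a p)) := ell h hP hQ hi hj c hc hcase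
  have e2 : ∀ q, IsVirtualRetract (zpowers (b q)) := ell h.symm hQ hP hj hi c hc hcase
  have key : ∀ (n : ℕ) (l : List (P × Q)), l.length = n → IsVirtualRetract (zpowers (val a b l)) := by
    intro n
    induction n using Nat.strong_induction_on with
    | _ n ih => ?_
    intro l hl
    by_cases hred : ∃ x ∈ l, x.1 ∈ i.range ∨ x.2 ∈ j.range
    · obtain ⟨x, hx, hx'⟩ := hred
      obtain ⟨l1, l2, rfl⟩ := List.append_of_mem hx
      have hlen : (l2 ++ l1).length < n := by
        rw [← hl]
        simp only [List.length_append, List.length_cons]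
        omega
      have hconj : (val a b l1)⁻¹ * val a b (l1 ++ x :: l2) * (val a b l1)⁻¹⁻¹ =
          a x.1 * b x.2 * val a b (l2 ++ l1) := by
        rw [val_append, val_cons, val_append]
        group
      refine IsVirtualRetract.of_conj (val a b l1)⁻¹ ?_
      rw [hconj]
      generalize hrest : l2 ++ l1 = rest at hlen
      rcases hx' with ⟨r, hr⟩ | ⟨r, hr⟩
      · rw [← hr, h.comm, ← map_mul]
        rcases List.eq_nil_or_concat rest with rfl | ⟨rest', x', rfl⟩
        · rw [val_nil, mul_one]
          exact e2 _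
        · have h3 : (a x'.1 * b x'.2) * (b (j r * x.2) * val a b (rest' ++ [x'])) *
              (a x'.1 * b x'.2)⁻¹ = val a b ((x'.1, x'.2 * (j r * x.2)) :: rest') := by
            rw [val_append, val_cons, val_cons, val_nil]
            simp only [map_mul]
            group
          refine IsVirtualRetract.of_conj (a x'.1 * b x'.2) ?_
          rw [List.concat_eq_append, h3]
          refine ih _ ?_ _ rfl
          rw [List.concat_eq_append] at hlen
          simp only [List.length_append, List.length_cons, List.length_nil] at hlen ⊢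
          omega
      · rw [← hr, ← h.comm, ← map_mul]
        rcases rest with _ | ⟨x', rest'⟩
        · rw [val_nil, mul_one]
          exact e1 _
        · have h3 : a (x.1 * i r) * val a b (x' :: rest') =
              val a b ((x.1 * i r * x'.1, x'.2) :: rest') := by
            rw [val_cons, val_cons]
            simp only [map_mul]
            group
          rw [h3]
          refine ih _ ?_ _ rfl
          simp only [List.length_cons] at hlen ⊢
          omega
    · push Not at hred
      by_cases hnil : l = []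
      · rw [hnil, val_nil, ← map_one a]
        exact e1 1
      · obtain ⟨y, h1, h2, h3⟩ := val_seq (a := a) (b := b) l hnil
        rw [← h3]
        exact hyp h hP hQ hi hj c hc hcase y l.length (List.length_pos_iff.2 hnil) h2
          (fun m => (hred _ (h1 m)).1) (fun m => (hred _ (h1 m)).2)
  intro g
  obtain ⟨l, rfl⟩ := exists_val h g
  exact key _ l rfl

/-- **Main theorem.** -/
theorem main (R : Subgroup P) (S : Subgroup Q) (e : R ≃* S) (hR : VirtuallyCyclic R) (hP : VRC P)
    (hQ : VRC Q) : VRC (Amalg R S e) := by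
  obtain ⟨c, hc⟩ := hR
  have hi : Function.Injective R.subtype := R.subtype_injective
  have hj : Function.Injective (S.subtype.comp e.toMonoidHom) :=
    S.subtype_injective.comp e.injective
  by_cases hf : IsOfFinOrder c
  · have h1 : Finite (zpowers c) := finite_zpowers.2 hf
    have h2 : Finite R := (finite_iff_finite_and_finiteIndex (zpowers c)).2 ⟨h1, hc⟩
    exact vrc_amalg (isAmalg R S e) hP hQ hi hj 1 inferInstance (Or.inl rfl)
  · exact vrc_amalg (isAmalg R S e) hP hQ hi hj c hc (Or.inr hf)

end Run7.h244.VR
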