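import Pool.Agent.Run7.h244.VR.Sub

/-!
# The standard form of a finite quotient of a vertex group
-/

set_option autoImplicit false

namespace Run7.h244.VR

open Subgroup

universe u

theorem mkPerm {P : Type u} [Group P] {X : Type u} (f : P → X → X) (h1 : ∀ x, f 1 x = x)
    (h2 : ∀ p q x, f (p * q) x = f p (f q x)) :
    ∃ F : P →* Equiv.Perm X, ∀ p x, F p x = f p x := by
  let A : MulAction P X :=
    { smul := f
      one_smul := h1
      mul_smul := h2 }
  exact ⟨@MulAction.toPermHom P X _ A, fun p x => rfl⟩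

variable {P R : Type u} [Group P] [Group R]

theorem nn_exists (d ρ : R) (s : R ⧸ zpowers d) :
    ∃ n : ℤ, d ^ n = ((ρ • s).out)⁻¹ * (ρ * s.out) := by
  have h1 : ((((ρ • s).out : R)) : R ⧸ zpowers d) = ((ρ * s.out : R) : R ⧸ zpowers d) := by
    rw [QuotientGroup.out_eq']
    conv_lhs => rw [← QuotientGroup.out_eq' s]
    rfl
  exact QuotientGroup.eq.1 h1

/-- the exponent of `d` in the cocycle of the transversal -/
noncomputable def nn (d ρ : R) (s : R ⧸ zpowers d) : ℤ := (nn_exists d ρ s).choose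

theorem nn_spec (d ρ : R) (s : R ⧸ zpowers d) :
    d ^ (nn d ρ s) = ((ρ • s).out)⁻¹ * (ρ * s.out) := (nn_exists d ρ s).choose_spec

/-- The standard form. -/
theorem std (i : R →* P) (N : Subgroup P) (hN : N.Normal) (hNf : N.FiniteIndex) (d : R)
    (hd : N.comap i = zpowers d) (φ : P → ℤ) (hφ : AddOn N φ) :
    ∃ (T : Type u) (_ : Finite T) (F : P →* Equiv.Perm ((R ⧸ zpowers d) × T))
      (α : P → (R ⧸ zpowers d) × T → ℤ) (A : T → ℤ) (x₁ : (R ⧸ zpowers d) × T),
      (∀ ρ s t, F (i ρ) (s, t) = (ρ • s, t)) ∧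
      (∀ p p' x, α (p * p') x = α p (F p' x) + α p' x) ∧
      (∀ ρ s t, α (i ρ) (s, t) = nn d ρ s * A t) ∧
      (∀ p ∈ N, ∀ x, F p x = x) ∧
      (∀ p ∈ N, α p x₁ = φ p) ∧
      (∀ p x, F p x = x → p ∈ N) ∧
      (∀ p, (∀ r, p * i r ∉ N) → ∀ x, (F p x).2 ≠ x.2) ∧ (d = 1 → ∀ t, A t = 0) := by
  classical
  have hNc : ∀ (x n : P), n ∈ N → x⁻¹ * n * x ∈ N := by
    intro x n hn
    simpa using hN.conj_mem n hn x⁻¹
  have hdN : i d ∈ N := by
    have : d ∈ N.comap i := by rw [hd]; exact mem_zpowers d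
    exact this
  let st : Setoid P :=
    { r := fun p p' => ∃ r : R, (i r * p)⁻¹ * p' ∈ N
      iseqv :=
        { refl := fun p => ⟨1, by simp⟩
          symm := by
            rintro p p' ⟨r, h⟩
            refine ⟨r⁻¹, ?_⟩
            have h1 : (i r⁻¹ * p')⁻¹ * p = ((i r * p)⁻¹ * p')⁻¹ := by
              rw [map_inv]; group
            rw [h1]
            exact inv_mem h
          trans := by
            rintro p p' p'' ⟨r, h⟩ ⟨r', h'⟩
            refine ⟨r' * r, ?_⟩
            have h1 : (i (r' * r) * p)⁻¹ * p'' = ((i r * p)⁻¹ * p') * ((i r' * p')⁻¹ * p'') := by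
              rw [map_mul]; group
            rw [h1]
            exact mul_mem h h' } }
  let T := Quotient st
  let sec : (R ⧸ zpowers d) × T → P := fun x => i x.1.out * x.2.out
  let E : (R ⧸ zpowers d) × T → P ⧸ N := fun x => (sec x : P)
  have E_mk : ∀ (r : R) (t : T), E ((r : R ⧸ zpowers d), t) = ((i r * t.out : P) : P ⧸ N) := by
    intro r t
    obtain ⟨⟨y, hy⟩, hy'⟩ := QuotientGroup.mk_out_eq_mul (zpowers d) r
    show ((i ((r : R ⧸ zpowers d)).out * t.out : P) : P ⧸ N) = _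
    rw [hy']
    refine QuotientGroup.eq.2 ?_
    have hyN : i y ∈ N := by
      have : y ∈ N.comap i := by rw [hd]; exact hy
      exact this
    have h1 : (i (r * y) * t.out)⁻¹ * (i r * t.out) = t.out⁻¹ * (i y)⁻¹ * t.out := by
      rw [map_mul]; group
    rw [h1]
    exact hNc _ _ (inv_mem hyN)
  have Einj : Function.Injective E := by
    rintro ⟨s, t⟩ ⟨s', t'⟩ h
    have h1 : (i s.out * t.out)⁻¹ * (i s'.out * t'.out) ∈ N := QuotientGroup.eq.1 h
    have h2 : t = t' := by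
      rw [← Quotient.out_eq t, ← Quotient.out_eq t']
      apply Quotient.sound
      refine ⟨s'.out⁻¹ * s.out, ?_⟩
      have h3 : (i (s'.out⁻¹ * s.out) * t.out)⁻¹ * t'.out =
          (i s.out * t.out)⁻¹ * (i s'.out * t'.out) := by
        rw [map_mul, map_inv]; group
      rw [h3]
      exact h1
    subst h2
    have h3 : s.out⁻¹ * s'.out ∈ N.comap i := by
      show i (s.out⁻¹ * s'.out) ∈ N
      have h4 : i (s.out⁻¹ * s'.out) =
          t.out * ((i s.out * t.out)⁻¹ * (i s'.out * t.out)) * t.out⁻¹ := by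
        rw [map_mul, map_inv]; group
      rw [h4]
      exact hN.conj_mem _ h1 _
    rw [hd] at h3
    have h5 : s = s' := by
      rw [← QuotientGroup.out_eq' s, ← QuotientGroup.out_eq' s']
      exact QuotientGroup.eq.2 h3
    rw [h5]
  have Esurj : Function.Surjective E := by
    intro x
    obtain ⟨p, rfl⟩ := QuotientGroup.mk_surjective x
    have h1 : (Quotient.mk st p).out ≈ p := Quotient.mk_out p
    obtain ⟨r, hr⟩ := h1
    refine ⟨((r : R ⧸ zpowers d), Quotient.mk st p), ?_⟩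
    rw [E_mk]
    exact QuotientGroup.eq.2 hr
  let e : ((R ⧸ zpowers d) × T) ≃ P ⧸ N := Equiv.ofBijective E ⟨Einj, Esurj⟩
  have he : ∀ x, e x = E x := fun x => rfl
  obtain ⟨F, hF⟩ := mkPerm (P := P) (X := (R ⧸ zpowers d) × T) (fun p x => e.symm (p • e x))
    (fun x => by simp) (fun p q x => by simp [mul_smul])
  have hEF : ∀ p x, E (F p x) = ((p * sec x : P) : P ⧸ N) := by
    intro p x
    rw [hF, ← he, Equiv.apply_symm_apply]
    rfl
  have hsec : ∀ p x, (sec (F p x))⁻¹ * (p * sec x) ∈ N := fun p x => QuotientGroup.eq.1 (hEF p x)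
  have hfin : Finite T := by
    have := hNf
    have h1 : Finite (P ⧸ N) := inferInstance
    have h2 : Finite ((R ⧸ zpowers d) × T) := Finite.of_equiv _ e.symm
    exact Finite.prod_right (R ⧸ zpowers d)
  have hFR : ∀ ρ s t, F (i ρ) (s, t) = (ρ • s, t) := by
    intro ρ s t
    apply Einj
    rw [hEF]
    obtain ⟨r, rfl⟩ := QuotientGroup.mk_surjective s
    show ((i ρ * sec ((r : R ⧸ zpowers d), t) : P) : P ⧸ N) = E (((ρ * r : R) : R ⧸ zpowers d), t)
    rw [E_mk, map_mul]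
    have h2 := E_mk r t
    have h3 : ((i ρ * sec ((r : R ⧸ zpowers d), t) : P) : P ⧸ N) =
      i ρ • E ((r : R ⧸ zpowers d), t) := rfl
    rw [h3, h2]
    show ((i ρ * (i r * t.out) : P) : P ⧸ N) = _
    rw [mul_assoc]
  have hFN : ∀ p ∈ N, ∀ x, F p x = x := by
    intro p hp x
    apply Einj
    rw [hEF]
    show _ = ((sec x : P) : P ⧸ N)
    refine QuotientGroup.eq.2 ?_
    have h1 : (p * sec x)⁻¹ * sec x = (sec x)⁻¹ * p⁻¹ * sec x := by group
    rw [h1]
    exact hNc _ _ (inv_mem hp)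
  let x₁ : (R ⧸ zpowers d) × T := e.symm ((1 : P) : P ⧸ N)
  have hx₁ : sec x₁ ∈ N := by
    have h1 : E x₁ = ((1 : P) : P ⧸ N) := by
      rw [← he]
      exact Equiv.apply_symm_apply _ _
    have h2 : (sec x₁)⁻¹ * 1 ∈ N := QuotientGroup.eq.1 h1
    rw [mul_one] at h2
    simpa using inv_mem h2
  refine ⟨T, hfin, F, fun p x => φ ((sec (F p x))⁻¹ * (p * sec x)),
    fun t => φ (t.out⁻¹ * i d * t.out), x₁, hFR, ?_, ?_, hFN, ?_, ?_, ?_, ?_⟩
  · intro p p' x
    show φ ((sec (F (p * p') x))⁻¹ * (p * p' * sec x)) = _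
    rw [← hφ _ (hsec p (F p' x)) _ (hsec p' x)]
    congr 1
    rw [map_mul, Equiv.Perm.mul_apply]
    group
  · intro ρ s t
    show φ ((sec (F (i ρ) (s, t)))⁻¹ * (i ρ * sec (s, t))) = _
    rw [hFR]
    show φ ((i (ρ • s).out * t.out)⁻¹ * (i ρ * (i s.out * t.out))) = _
    have h1 : (i (ρ • s).out * t.out)⁻¹ * (i ρ * (i s.out * t.out)) =
        (t.out⁻¹ * i d * t.out) ^ (nn d ρ s) := by
      have h2 : (t.out⁻¹ * i d * t.out) ^ (nn d ρ s) = t.out⁻¹ * (i d) ^ (nn d ρ s) * t.out := by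
        have := conj_zpow (a := t.out⁻¹) (b := i d) (i := nn d ρ s)
        rw [inv_inv] at this
        exact this
      rw [h2, ← map_zpow, nn_spec, map_mul, map_inv, map_mul]
      group
    rw [h1, hφ.zpow (hNc _ _ hdN)]
  · intro p hp
    show φ ((sec (F p x₁))⁻¹ * (p * sec x₁)) = φ p
    rw [hFN p hp]
    have h1 := hφ.conj hp (inv_mem hx₁)
    rw [inv_inv] at h1
    rw [← h1]
    congr 1
    group
  · intro p x h
    have h1 := hsec p x
    rw [h] at h1
    have h2 := hN.conj_mem _ h1 (sec x)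
    have h3 : sec x * ((sec x)⁻¹ * (p * sec x)) * (sec x)⁻¹ = p := by group
    rwa [h3] at h2
  · rintro p hp ⟨s, t⟩ h
    obtain ⟨s', hs'⟩ : ∃ s', F p (s, t) = (s', t) := ⟨(F p (s, t)).1, Prod.ext rfl h⟩
    have h1 := hsec p (s, t)
    rw [hs'] at h1
    refine hp (s.out * s'.out⁻¹) ?_
    have h2 := hN.conj_mem _ h1 (sec (s', t))
    have h3 : sec (s', t) * ((sec (s', t))⁻¹ * (p * sec (s, t))) * (sec (s', t))⁻¹ =
        p * i (s.out * s'.out⁻¹) := by
      show (i s'.out * t.out) * ((i s'.out * t.out)⁻¹ * (p * (i s.out * t.out))) *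
        (i s'.out * t.out)⁻¹ = _
      rw [map_mul, map_inv]
      group
    rwa [h3] at h2
  · intro h t
    show φ (t.out⁻¹ * i d * t.out) = 0
    have h1 : t.out⁻¹ * i d * t.out = 1 := by
      rw [h, map_one]; group
    rw [h1, hφ.one]

end Run7.h244.VR
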