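import Pool.Agent.Run7.h244.VR.Crit

/-!
# Subgroups of finite index of groups with property (VRC)
-/

set_option autoImplicit false

namespace Run7.h244.VR

open Subgroup

universe u

section
variable {G : Type u} [Group G]

/-- `c` is additive on `H`. -/
def AddOn (H : Subgroup G) (c : G → ℤ) : Prop := ∀ x ∈ H, ∀ y ∈ H, c (x * y) = c x + c y

theorem AddOn.one {H : Subgroup G} {c : G → ℤ} (h : AddOn H c) : c 1 = 0 := by
  have := h 1 (one_mem _) 1 (one_mem _)
  rw [mul_one] at this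
  linarith

theorem AddOn.inv {H : Subgroup G} {c : G → ℤ} (h : AddOn H c) {x : G} (hx : x ∈ H) :
    c x⁻¹ = - c x := by
  have := h x hx x⁻¹ (inv_mem hx)
  rw [mul_inv_cancel, h.one] at this
  linarith

theorem AddOn.conj {H : Subgroup G} {c : G → ℤ} (h : AddOn H c) {x y : G} (hx : x ∈ H)
    (hy : y ∈ H) : c (y * x * y⁻¹) = c x := by
  rw [h _ (mul_mem hy hx) _ (inv_mem hy), h _ hy _ hx, h.inv hy]
  ring

theorem AddOn.pow {H : Subgroup G} {c : G → ℤ} (h : AddOn H c) {x : G} (hx : x ∈ H) (n : ℕ) :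
    c (x ^ n) = n * c x := by
  induction n with
  | zero => simp [h.one]
  | succ n ih =>
    rw [pow_succ, h _ (pow_mem hx n) _ hx, ih]
    push_cast
    ring

theorem AddOn.zpow {H : Subgroup G} {c : G → ℤ} (h : AddOn H c) {x : G} (hx : x ∈ H) (n : ℤ) :
    c (x ^ n) = n * c x := by
  obtain ⟨n, rfl | rfl⟩ := n.eq_nat_or_neg
  · rw [zpow_natCast, h.pow hx]
  · rw [zpow_neg, zpow_natCast, h.inv (pow_mem hx n), h.pow hx]
    ring

theorem AddOn.mono {H K : Subgroup G} {c : G → ℤ} (h : AddOn H c) (hK : K ≤ H) : AddOn K c :=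
  fun x hx y hy => h x (hK hx) y (hK hy)

theorem crit_add (g : G) (H : Subgroup G) (hH : H.FiniteIndex) (c : G → ℤ) (hc : AddOn H c) (k : ℕ)
    (hg : g ^ k ∈ H) (hne : c (g ^ k) ≠ 0) : IsVirtualRetract (zpowers g) := by
  refine crit_inf g H hH
    { toFun := fun x => Multiplicative.ofAdd (c x), map_one' := ?_, map_mul' := ?_ } k hg ?_
  · show Multiplicative.ofAdd (c 1) = 1
    rw [hc.one]
    rfl
  · intro x y
    show Multiplicative.ofAdd (c ((x : G) * y)) = _
    rw [hc _ x.2 _ y.2]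
    rfl
  · intro h
    have h1 : Multiplicative.ofAdd (c (g ^ k)) = Multiplicative.ofAdd 0 := h
    exact hne (Multiplicative.ofAdd.injective h1)

theorem fi_normalCore {H : Subgroup G} (h : H.FiniteIndex) : H.normalCore.FiniteIndex := by
  have := h
  infer_instance

theorem fi_inf {H K : Subgroup G} (h : H.FiniteIndex) (h' : K.FiniteIndex) :
    (H ⊓ K).FiniteIndex := by
  have := h
  have := h'
  infer_instance

theorem fi_le {H K : Subgroup G} (h : H.FiniteIndex) (h' : H ≤ K) : K.FiniteIndex := by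
  have := h
  exact finiteIndex_of_le h'

theorem fi_comap {A B : Type u} [Group A] [Group B] (f : A →* B) (H : Subgroup B)
    (h : H.FiniteIndex) : (H.comap f).FiniteIndex := by
  refine ⟨?_⟩
  rw [Subgroup.index_comap]
  have := h
  exact (isFiniteRelIndex_of_finiteIndex (H := H) (K := f.range)).relIndex_ne_zero

/-- the preimage of a subgroup of finite index of a group `A` in a subgroup of finite index -/
theorem fi_map {A : Type u} [Group A] {K : Subgroup G} (hK : K.FiniteIndex) (ρ : K →* A) (B : Subgroup A)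
    (hB : B.FiniteIndex) : ((B.comap ρ).map K.subtype).FiniteIndex := by
  have h1 : (B.comap ρ).FiniteIndex := fi_comap ρ B hB
  refine ⟨?_⟩
  rw [Subgroup.index_map_subtype]
  exact mul_ne_zero h1.index_ne_zero hK.index_ne_zero

theorem fi_dvd {H : Subgroup G} (hH : H.FiniteIndex) {c : G → ℤ} (hc : AddOn H c) (n : ℤ)
    (hn : n ≠ 0) : ∃ L : Subgroup G, L.FiniteIndex ∧ ∀ x, x ∈ L ↔ x ∈ H ∧ n ∣ c x := by
  let ψ : H →* Multiplicative (ZMod n.natAbs) :=
    { toFun := fun x => Multiplicative.ofAdd ((c x : ℤ) : ZMod n.natAbs)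
      map_one' := by
        show Multiplicative.ofAdd ((c 1 : ℤ) : ZMod n.natAbs) = 1
        rw [hc.one]
        simp
      map_mul' := by
        intro x y
        show Multiplicative.ofAdd ((c ((x : G) * y) : ℤ) : ZMod n.natAbs) = _
        rw [hc _ x.2 _ y.2, ← ofAdd_add]
        push_cast
        rfl }
  have : NeZero n.natAbs := ⟨Int.natAbs_ne_zero.2 hn⟩
  have hψ : ψ.ker.FiniteIndex := inferInstance
  refine ⟨ψ.ker.map H.subtype, ⟨?_⟩, ?_⟩
  · rw [Subgroup.index_map_subtype]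
    exact mul_ne_zero hψ.index_ne_zero hH.index_ne_zero
  · have key : ∀ y : H, y ∈ ψ.ker ↔ n ∣ c y := by
      intro y
      rw [MonoidHom.mem_ker]
      have h3 : ψ y = 1 ↔ ((c y : ℤ) : ZMod n.natAbs) = 0 :=
        ⟨fun h => Multiplicative.ofAdd.injective h, fun h => by
          show Multiplicative.ofAdd ((c y : ℤ) : ZMod n.natAbs) = 1
          rw [h]; rfl⟩
      rw [h3, ZMod.intCast_zmod_eq_zero_iff_dvd, Int.natAbs_dvd]
    intro x
    constructor
    · rintro ⟨y, hy, rfl⟩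
      exact ⟨y.2, (key y).1 hy⟩
    · rintro ⟨hx, hx'⟩
      exact ⟨⟨x, hx⟩, (key ⟨x, hx⟩).2 hx', rfl⟩

end

section
variable {P : Type u} [Group P]

/-- a homomorphism to `ℤ` from a subgroup of finite index -/
theorem hom_of_vrc (hP : VRC P) (g : P) (hg : ¬ IsOfFinOrder g) :
    ∃ N : Subgroup P, N.FiniteIndex ∧ g ∈ N ∧ ∃ c : P → ℤ, AddOn N c ∧ ∀ k : ℤ, c (g ^ k) = k := by
  classical
  obtain ⟨K, hK, hle, ρ, hρ⟩ := hP g
  have hinj : Function.Injective fun n : ℤ => g ^ n := injective_zpow_iff_not_isOfFinOrder.2 hg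
  have h1 : ∀ x : K, ∃ n : ℤ, g ^ n = (ρ x : P) := fun x => (ρ x).2
  choose e he using h1
  let c : P → ℤ := fun x => if h : x ∈ K then e ⟨x, h⟩ else 0
  refine ⟨K, hK, hle (mem_zpowers g), c, ?_, ?_⟩
  · intro x hx y hy
    have hxy := mul_mem hx hy
    simp only [c, dif_pos hx, dif_pos hy, dif_pos hxy]
    apply hinj
    show g ^ e ⟨x * y, hxy⟩ = g ^ (e ⟨x, hx⟩ + e ⟨y, hy⟩)
    rw [zpow_add, he, he, he, ← Subgroup.coe_mul, ← map_mul]
    rfl
  · intro k
    have hk : g ^ k ∈ K := hle ⟨k, rfl⟩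
    simp only [c, dif_pos hk]
    apply hinj
    show g ^ e ⟨g ^ k, hk⟩ = g ^ k
    rw [he, hρ ⟨g ^ k, hk⟩ ⟨k, rfl⟩]

/-- Groups with (VRC) are residually finite. -/
theorem rf (hP : VRC P) (w : P) (hw : w ≠ 1) :
    ∃ N : Subgroup P, N.Normal ∧ N.FiniteIndex ∧ w ∉ N := by
  suffices h : ∃ L : Subgroup P, L.FiniteIndex ∧ w ∉ L by
    obtain ⟨L, hL, hw'⟩ := h
    exact ⟨L.normalCore, normalCore_normal _, fi_normalCore hL, fun h => hw' (normalCore_le _ h)⟩
  by_cases hf : IsOfFinOrder w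
  · obtain ⟨K, hK, hle, ρ, hρ⟩ := hP w
    have : Finite (zpowers w) := finite_zpowers.2 hf
    refine ⟨((⊥ : Subgroup (zpowers w)).comap ρ).map K.subtype, fi_map hK ρ ⊥ inferInstance, ?_⟩
    rintro ⟨x, hx, hxw⟩
    have h3 : (x : P) = w := hxw
    have hx' : ρ x = 1 := hx
    have h4 := hρ x (by rw [h3]; exact mem_zpowers w)
    rw [hx', h3] at h4
    exact hw h4.symm
  · obtain ⟨N, hN, _, c, hc, hck⟩ := hom_of_vrc hP w hf
    obtain ⟨L, hL, hL'⟩ := fi_dvd hN hc 2 (by norm_num)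
    refine ⟨L, hL, fun h => ?_⟩
    have h1 := ((hL' w).1 h).2
    have h2 := hck 1
    rw [zpow_one] at h2
    rw [h2] at h1
    omega

/-- Cyclic subgroups are closed in the profinite topology. -/
theorem sep (hP : VRC P) (c r : P) (hr : r ∉ zpowers c) :
    ∃ N : Subgroup P, N.Normal ∧ N.FiniteIndex ∧ ∀ y ∈ zpowers c, r * y ∉ N := by
  obtain ⟨K, hK, hle, ρ, hρ⟩ := hP c
  by_cases hrK : r ∈ K
  · have hw : r⁻¹ * (ρ ⟨r, hrK⟩ : P) ≠ 1 := by
      intro h
      apply hr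
      rw [inv_mul_eq_one] at h
      rw [h]
      exact (ρ _).2
    obtain ⟨N, hN, hNf, hwN⟩ := rf hP _ hw
    let L : Subgroup P := N ⊓ (((N.comap (zpowers c).subtype).comap ρ).map K.subtype)
    have hL : L.FiniteIndex := fi_inf hNf (fi_map hK ρ _ (fi_comap _ _ hNf))
    refine ⟨L.normalCore, normalCore_normal _, fi_normalCore hL, ?_⟩
    intro y hy h
    obtain ⟨h1, ⟨x, hx, hxy⟩⟩ := normalCore_le _ h
    have hx1 : (ρ x : P) ∈ N := hx
    have hx2 : (x : P) = r * y := hxy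
    have hyK : y ∈ K := hle hy
    have hx3 : x = ⟨r, hrK⟩ * ⟨y, hyK⟩ := Subtype.ext hx2
    have hx4 : (ρ x : P) = (ρ ⟨r, hrK⟩ : P) * y := by
      rw [hx3, map_mul, Subgroup.coe_mul, hρ ⟨y, hyK⟩ hy]
    rw [hx4] at hx1
    apply hwN
    have h5 : r⁻¹ * (ρ ⟨r, hrK⟩ : P) = y * ((r * y)⁻¹ * ((ρ ⟨r, hrK⟩ : P) * y)) * y⁻¹ := by group
    rw [h5]
    exact hN.conj_mem _ (mul_mem (inv_mem h1) hx1) y
  · refine ⟨K.normalCore, normalCore_normal _, fi_normalCore hK, ?_⟩
    intro y hy h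
    apply hrK
    have h1 := mul_mem (normalCore_le _ h) (inv_mem (hle hy))
    rwa [mul_inv_cancel_right] at h1

variable {R : Type u} [Group R] (i : R →* P)

/-- elements of `P` outside of `R` are outside of `R N` -/
theorem sep_range (hP : VRC P) (c : R) (hc : (zpowers c).FiniteIndex)
    (p : P) (hp : p ∉ i.range) :
    ∃ N : Subgroup P, N.Normal ∧ N.FiniteIndex ∧ ∀ r : R, p * i r ∉ N := by
  classical
  have := hc
  have : Finite (R ⧸ zpowers c) := inferInstance
  have h1 : ∀ q : R ⧸ zpowers c, ∃ N : Subgroup P, N.Normal ∧ N.FiniteIndex ∧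
      ∀ y ∈ zpowers (i c), p * i q.out * y ∉ N := by
    intro q
    apply sep hP
    rintro ⟨n, hn⟩
    apply hp
    refine ⟨c ^ n * q.out⁻¹, ?_⟩
    rw [map_mul, map_zpow, map_inv]
    have : (i c) ^ n = p * i q.out := hn
    rw [this]
    group
  choose N hN hNf hN' using h1
  refine ⟨⨅ q, N q, ?_, finiteIndex_iInf hNf, ?_⟩
  · exact Subgroup.normal_iInf_normal hN
  · intro r h
    obtain ⟨⟨y, hy⟩, hy'⟩ := QuotientGroup.mk_out_eq_mul (zpowers c) r
    have h2 : p * i r ∈ N (r : R ⧸ zpowers c) := (Subgroup.mem_iInf.1 h) _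
    refine hN' (r : R ⧸ zpowers c) (i y)⁻¹ ?_ ?_
    · obtain ⟨n, hn⟩ := hy
      refine inv_mem ⟨n, ?_⟩
      show (i c) ^ n = i y
      rw [← map_zpow]
      exact congrArg i hn
    · rw [hy', map_mul]
      have : p * (i r * i y) * (i y)⁻¹ = p * i r := by group
      rw [this]
      exact h2

/-- a normal subgroup of finite index which meets `R` inside `⟨c⟩` -/
theorem inside (hP : VRC P) (hi : Function.Injective i) (c : R) (hc : (zpowers c).FiniteIndex) :
    ∃ N : Subgroup P, N.Normal ∧ N.FiniteIndex ∧ N.comap i ≤ zpowers c := by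
  classical
  have := hc
  have : Finite (R ⧸ zpowers c) := inferInstance
  have h1 : ∀ q : R ⧸ zpowers c, ∃ N : Subgroup P, N.Normal ∧ N.FiniteIndex ∧
      (q ≠ ((1 : R) : R ⧸ zpowers c) → ∀ y ∈ zpowers (i c), i q.out * y ∉ N) := by
    intro q
    by_cases hq : q = ((1 : R) : R ⧸ zpowers c)
    · exact ⟨⊤, inferInstance, inferInstance, fun h => absurd hq h⟩
    obtain ⟨N, h1, h2, h3⟩ := sep hP (i c) (i q.out) (by
      rintro ⟨n, hn⟩
      apply hq
      have h4 : q.out = c ^ n := by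
        apply hi
        rw [map_zpow]
        exact hn.symm
      rw [← QuotientGroup.out_eq' q, h4]
      exact (QuotientGroup.eq.2 (by simp)))
    exact ⟨N, h1, h2, fun _ => h3⟩
  choose N hN hNf hN' using h1
  refine ⟨⨅ q, N q, Subgroup.normal_iInf_normal hN, finiteIndex_iInf hNf, ?_⟩
  intro r hr
  by_contra hrc
  obtain ⟨⟨y, hy⟩, hy'⟩ := QuotientGroup.mk_out_eq_mul (zpowers c) r
  have h2 : i r ∈ N (r : R ⧸ zpowers c) := (Subgroup.mem_iInf.1 hr) _
  refine hN' (r : R ⧸ zpowers c) ?_ (i y)⁻¹ ?_ ?_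
  · intro h
    apply hrc
    have := QuotientGroup.eq.1 h.symm
    simpa using this
  · obtain ⟨n, hn⟩ := hy
    refine inv_mem ⟨n, ?_⟩
    show (i c) ^ n = i y
    rw [← map_zpow]
    exact congrArg i hn
  · rw [hy', map_mul]
    have : i r * i y * (i y)⁻¹ = i r := by group
    rw [this]
    exact h2

/-- Quasi-potency: the traces on `R` of the normal subgroups of finite index. -/
theorem pot (hP : VRC P) (hi : Function.Injective i) (c : R) (hc : (zpowers c).FiniteIndex)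
    (hcase : c = 1 ∨ ¬ IsOfFinOrder c) (N' : Subgroup P) (hN' : N'.Normal) (hN'f : N'.FiniteIndex) :
    ∃ M : ℕ, 0 < M ∧ ∀ m : ℕ, 0 < m → M ∣ m → ∃ N : Subgroup P, N.Normal ∧ N.FiniteIndex ∧ N ≤ N' ∧
      N.comap i = zpowers (c ^ m) := by
  obtain ⟨N₀, hN₀, hN₀f, hN₀c⟩ := inside i hP hi c hc
  rcases hcase with rfl | hinf
  · refine ⟨1, one_pos, fun m _ _ => ⟨N' ⊓ N₀, inferInstance, fi_inf hN'f hN₀f, inf_le_left, ?_⟩⟩
    rw [one_pow]
    apply le_antisymm
    · exact le_trans (Subgroup.comap_mono inf_le_right) hN₀c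
    · rw [zpowers_one_eq_bot]
      exact bot_le
  have hinf' : ¬ IsOfFinOrder (i c) := by
    intro h
    apply hinf
    rw [isOfFinOrder_iff_pow_eq_one] at h ⊢
    obtain ⟨n, hn, hn'⟩ := h
    refine ⟨n, hn, hi ?_⟩
    rw [map_pow, hn', map_one]
  obtain ⟨K, hK, _, φ, hφ, hφc⟩ := hom_of_vrc hP (i c) hinf'
  set N₁ : Subgroup P := (N' ⊓ N₀) ⊓ K.normalCore with hN₁
  have hN₁n : N₁.Normal := by
    have := normalCore_normal K
    infer_instance
  have hN₁f : N₁.FiniteIndex := fi_inf (fi_inf hN'f hN₀f) (fi_normalCore hK)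
  have hN₁K : N₁ ≤ K := le_trans inf_le_right (normalCore_le K)
  have hφ₁ : AddOn N₁ φ := hφ.mono hN₁K
  -- the exponents
  obtain ⟨p, hp0, hp⟩ : ∃ p : ℕ, 0 < p ∧ ∀ k : ℤ, (i c) ^ k ∈ N₁ ↔ (p : ℤ) ∣ k := by
    let A : AddSubgroup ℤ :=
      { carrier := {k | (i c) ^ k ∈ N₁}
        add_mem' := by
          intro a b ha hb
          show (i c) ^ (a + b) ∈ N₁
          rw [zpow_add]
          exact mul_mem ha hb
        zero_mem' := by
          show (i c) ^ (0 : ℤ) ∈ N₁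
          rw [zpow_zero]
          exact one_mem _
        neg_mem' := by
          intro a ha
          show (i c) ^ (-a) ∈ N₁
          rw [zpow_neg]
          exact inv_mem ha }
    obtain ⟨a, ha⟩ := Int.subgroup_cyclic A
    have ha' : ∀ k : ℤ, (i c) ^ k ∈ N₁ ↔ a ∣ k := by
      intro k
      have h1 : (i c) ^ k ∈ N₁ ↔ k ∈ A := Iff.rfl
      rw [h1, ha, ← AddSubgroup.zmultiples_eq_closure, Int.mem_zmultiples_iff]
    refine ⟨a.natAbs, ?_, fun k => by rw [ha' k, Int.natAbs_dvd]⟩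
    rw [Int.natAbs_pos]
    rintro rfl
    have h1 := (ha' N₁.index).1 (by rw [zpow_natCast]; exact Subgroup.pow_index_mem N₁ (i c))
    rw [zero_dvd_iff] at h1
    exact hN₁f.index_ne_zero (by exact_mod_cast h1)
  have hpm : (i c) ^ (p : ℤ) ∈ N₁ := (hp p).2 dvd_rfl
  let a : P → ℤ := fun y => φ (y * (i c) ^ (p : ℤ) * y⁻¹)
  have ha : ∀ (y : P) (k : ℤ), φ (y * (i c) ^ ((p : ℤ) * k) * y⁻¹) = k * a y := by
    intro y k
    have h1 : y * (i c) ^ ((p : ℤ) * k) * y⁻¹ = (y * (i c) ^ (p : ℤ) * y⁻¹) ^ k := by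
      rw [conj_zpow, zpow_mul]
    rw [h1, hφ₁.zpow (hN₁n.conj_mem _ hpm y)]
  obtain ⟨g, hg⟩ := Int.subgroup_cyclic (AddSubgroup.closure (Set.range a))
  rw [← AddSubgroup.zmultiples_eq_closure] at hg
  have hga : ∀ y, g ∣ a y := by
    intro y
    have h1 : a y ∈ AddSubgroup.closure (Set.range a) := AddSubgroup.subset_closure ⟨y, rfl⟩
    rwa [hg, Int.mem_zmultiples_iff] at h1
  have hg0 : g ≠ 0 := by
    rintro rfl
    have h1 := hga 1
    rw [zero_dvd_iff] at h1
    have h2 : a 1 = p := by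
      show φ (1 * (i c) ^ (p : ℤ) * 1⁻¹) = p
      rw [one_mul, inv_one, mul_one, hφc]
    rw [h2] at h1
    exact hp0.ne' (by exact_mod_cast h1)
  refine ⟨p, hp0, fun m hm hpm' => ?_⟩
  obtain ⟨j, rfl⟩ := hpm'
  have hj0 : 0 < j := Nat.pos_of_mul_pos_left hm
  obtain ⟨L, hL, hL'⟩ := fi_dvd hN₁f hφ₁ (g * j) (mul_ne_zero hg0 (by exact_mod_cast hj0.ne'))
  have hmem : ∀ k : ℤ, (i c) ^ k ∈ L.normalCore ⊓ N₁ ↔ ((p * j : ℕ) : ℤ) ∣ k := by
    intro k
    constructor
    · rintro ⟨h1, h2⟩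
      obtain ⟨k', rfl⟩ := (hp k).1 h2
      have h3 : ∀ y, g * j ∣ k' * a y := by
        intro y
        rw [← ha]
        exact ((hL' _).1 (h1 y)).2
      have h4 : g * j ∣ k' * g := by
        have h5 : g ∈ AddSubgroup.closure (Set.range a) := by
          rw [hg]
          exact AddSubgroup.mem_zmultiples g
        refine AddSubgroup.closure_induction (p := fun x _ => g * j ∣ k' * x) ?_ ?_ ?_ ?_ h5
        · rintro x ⟨y, rfl⟩
          exact h3 y
        · simp
        · intro x y _ _ hx hy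
          rw [mul_add]
          exact dvd_add hx hy
        · intro x _ hx
          rw [mul_neg]
          exact (dvd_neg).2 hx
      have h5 : (j : ℤ) ∣ k' := by
        rw [mul_comm k' g] at h4
        exact Int.dvd_of_mul_dvd_mul_left hg0 h4
      push_cast
      exact mul_dvd_mul_left _ h5
    · rintro ⟨l, rfl⟩
      have h1 : (i c) ^ (((p * j : ℕ) : ℤ) * l) ∈ N₁ := (hp _).2 (by
        push_cast
        rw [mul_assoc]
        exact dvd_mul_right _ _)
      refine ⟨fun y => ?_, h1⟩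
      refine (hL' _).2 ⟨hN₁n.conj_mem _ h1 y, ?_⟩
      have h2 : (((p * j : ℕ) : ℤ) * l) = (p : ℤ) * (j * l) := by
        push_cast
        ring
      rw [h2, ha]
      obtain ⟨b, hb⟩ := hga y
      exact ⟨l * b, by rw [hb]; ring⟩
  refine ⟨L.normalCore ⊓ N₁, ?_, fi_inf (fi_normalCore hL) hN₁f, ?_, ?_⟩
  · have := normalCore_normal L
    infer_instance
  · exact le_trans inf_le_right (le_trans inf_le_left inf_le_left)
  · apply le_antisymm
    · intro r hr
      have h1 : r ∈ zpowers c := hN₀c (hr.2.1.2)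
      obtain ⟨k, rfl⟩ := h1
      have h2 : (i c) ^ k ∈ L.normalCore ⊓ N₁ := by
        rw [← map_zpow]
        exact hr
      obtain ⟨l, rfl⟩ := (hmem k).1 h2
      refine ⟨l, ?_⟩
      show (c ^ (p * j)) ^ l = c ^ (((p * j : ℕ) : ℤ) * l)
      rw [zpow_mul, zpow_natCast]
    · rw [zpowers_le]
      have h1 := (hmem ((p * j : ℕ) : ℤ)).2 dvd_rfl
      show i (c ^ (p * j)) ∈ L.normalCore ⊓ N₁
      rw [map_pow, ← zpow_natCast]
      exact h1

end

end Run7.h244.VR
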